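import Pool.Agent.H735K.LocK

/-!
All classes to all moduli `q ≤ Q`, for one tuple of shifts.
-/

set_option autoImplicit false

namespace Pool.Agent.H735K

open Finset
open Pool.Agent.H373R2.T7 (pz Vz lamz mem_pz Vz_pos Vz_le_one nuP nuP_le singZ singZ_nonneg lamP lamI lamP_nonneg lamP_le lamI_le lamI_nonneg prod_sub_le)
open Pool.Agent.Helper735_BDH (two_pow_omega_le one_sub_sum_le dcard_pos)

/-- the contribution of proper prime powers in a short list of distinct integers -/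
lemma pp_sum (N X : ℕ) (ε a : ℤ) (hε : ε = 1 ∨ ε = -1) (hX : 1 ≤ X) (h : ∀ n ∈ Icc 1 N, ε * (n : ℤ) + a ≤ X) :
    ∑ n ∈ Icc 1 N, (lamI (ε * (n : ℤ) + a) - lamP (ε * (n : ℤ) + a)) ≤ 2 * √(X : ℝ) * Real.log X := by
  have h0 := Chebyshev.psi_sub_theta_le (x := (X : ℝ)) (by exact_mod_cast hX)
  rw [Chebyshev.psi_sub_theta_eq_sum_not_prime, Nat.floor_natCast] at h0
  refine le_trans ?_ h0
  have h1 : ∀ n ∈ Icc 1 N, lamI (ε * (n : ℤ) + a) - lamP (ε * (n : ℤ) + a) =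
      if 1 ≤ ε * (n : ℤ) + a ∧ ¬ (ε * (n : ℤ) + a).toNat.Prime then ArithmeticFunction.vonMangoldt (ε * (n : ℤ) + a).toNat else 0 := by
    intro n _
    unfold lamI lamP
    by_cases h2 : 1 ≤ ε * (n : ℤ) + a
    · by_cases h3 : ((ε * (n : ℤ) + a).toNat).Prime
      · rw [if_pos h2, if_pos h3, if_neg (fun h => h.2 h3), ArithmeticFunction.vonMangoldt_apply_prime h3, sub_self]
      · rw [if_pos h2, if_neg h3, if_pos ⟨h2, h3⟩, sub_zero]
    · have h3 : ¬ ((ε * (n : ℤ) + a).toNat).Prime := by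
        have : (ε * (n : ℤ) + a).toNat = 0 := by omega
        rw [this]; exact Nat.not_prime_zero
      rw [if_neg h2, if_neg h3, if_neg (fun h => h2 h.1), sub_self]
  rw [sum_congr rfl h1, ← sum_filter]
  have h2 : ∑ n ∈ (Icc 1 N).filter (fun n : ℕ => 1 ≤ ε * (n : ℤ) + a ∧ ¬ (ε * (n : ℤ) + a).toNat.Prime),
      ArithmeticFunction.vonMangoldt (ε * (n : ℤ) + a).toNat =
      ∑ j ∈ ((Icc 1 N).filter (fun n : ℕ => 1 ≤ ε * (n : ℤ) + a ∧ ¬ (ε * (n : ℤ) + a).toNat.Prime)).image (fun n : ℕ => (ε * (n : ℤ) + a).toNat),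
      ArithmeticFunction.vonMangoldt j := by
    rw [sum_image]
    intro n hn m hm hnm
    simp only [coe_filter, mem_Icc, Set.mem_ofPred_eq] at hn hm
    simp only at hnm
    rcases hε with rfl | rfl <;> omega
  rw [h2]
  apply sum_le_sum_of_subset_of_nonneg
  · intro j hj
    rw [mem_image] at hj
    obtain ⟨n, hn, rfl⟩ := hj
    rw [mem_filter] at hn
    have h3 := h n hn.1
    rw [mem_filter, mem_Ioc]
    exact ⟨⟨by omega, by omega⟩, hn.2.2⟩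
  · intro _ _ _
    exact ArithmeticFunction.vonMangoldt_nonneg

/-- the product of the logarithms at prime tuples -/
noncomputable def tP {k : ℕ} (ε h : Fin k → ℤ) (m : ℕ) : ℝ := lamP m * ∏ i, lamP (ε i * m + h i)

/-- the product of the von Mangoldt functions -/
noncomputable def tL {k : ℕ} (ε h : Fin k → ℤ) (m : ℕ) : ℝ := Lm m * ∏ i, Lm (ε i * m + h i)

/-- the weighted number of prime tuples in a residue class -/
noncomputable def thT {k : ℕ} (ε h : Fin k → ℤ) (y q r : ℕ) : ℝ :=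
  ∑ m ∈ (Icc 1 y).filter (fun m => m ≡ r [MOD q]), tP ε h m

/-- the contribution of the prime powers -/
noncomputable def ppT {k : ℕ} (ε h : Fin k → ℤ) (y q r : ℕ) : ℝ :=
  ∑ m ∈ (Icc 1 y).filter (fun m => m ≡ r [MOD q]), (tL ε h m - tP ε h m)

lemma tdiff {k : ℕ} (ε h : Fin k → ℤ) (m X : ℕ) (hX : 1 ≤ X) (hm : m ≤ X)
    (hi : ∀ i, ε i * m + h i ≤ X) (M : ℝ) (hM : 1 ≤ M) (hXM : Real.log X ≤ M) :
    0 ≤ tL ε h m - tP ε h m ∧ tL ε h m - tP ε h m ≤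
      M ^ (k + 1) * ((lamI m - lamP m) + ∑ i, (lamI (ε i * m + h i) - lamP (ε i * m + h i))) := by
  have hX1 : (1 : ℝ) ≤ X := by exact_mod_cast hX
  obtain ⟨h0, h1⟩ := prod_sub_le (univ : Finset (Option (Fin k)))
    (fun o => match o with | none => lamI m | some i => lamI (ε i * m + h i))
    (fun o => match o with | none => lamP m | some i => lamP (ε i * m + h i)) M hM
    (fun o _ => by cases o <;> exact lamP_nonneg _) (fun o _ => by cases o <;> exact lamP_le _)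
    (fun o _ => by
      cases o with
      | none => exact (lamI_le _ X hX1 (by exact_mod_cast hm)).trans hXM
      | some i => exact (lamI_le _ X hX1 (by exact_mod_cast hi i)).trans hXM)
  rw [Fintype.prod_option, Fintype.prod_option] at h0 h1
  rw [Fintype.sum_option, card_univ, Fintype.card_option, Fintype.card_fin] at h1
  exact ⟨h0, h1⟩

lemma ppT_total {k : ℕ} (ε : Fin k → ℤ) (hε : ∀ i, ε i = 1 ∨ ε i = -1) (h : Fin k → ℤ) (y X : ℕ) (hX : 1 ≤ X) (hy : y ≤ X)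
    (hi : ∀ i, ∀ m ∈ Icc 1 y, ε i * (m : ℤ) + h i ≤ X) (M : ℝ) (hM : 1 ≤ M) (hXM : Real.log X ≤ M) :
    ∑ m ∈ Icc 1 y, (tL ε h m - tP ε h m) ≤ (k + 1) * M ^ (k + 1) * (2 * √(X : ℝ) * Real.log X) := by
  have h1 : ∀ m ∈ Icc 1 y, tL ε h m - tP ε h m ≤
      M ^ (k + 1) * ((lamI m - lamP m) + ∑ i, (lamI (ε i * m + h i) - lamP (ε i * m + h i))) := by
    intro m hm
    exact (tdiff ε h m X hX ((mem_Icc.1 hm).2.trans hy) (fun i => hi i m hm) M hM hXM).2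
  refine (sum_le_sum h1).trans ?_
  rw [← mul_sum, sum_add_distrib, sum_comm]
  have g0 := pp_sum y X 1 0 (Or.inl rfl) hX (by
    intro n hn
    rw [mem_Icc] at hn
    rw [add_zero, one_mul]
    exact_mod_cast hn.2.trans hy)
  simp only [add_zero, one_mul] at g0
  have g1 : ∀ i ∈ (univ : Finset (Fin k)), ∑ n ∈ Icc 1 y, (lamI (ε i * (n : ℤ) + h i) - lamP (ε i * (n : ℤ) + h i)) ≤ 2 * √(X : ℝ) * Real.log X :=
    fun i _ => pp_sum y X (ε i) (h i) (hε i) hX (hi i)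
  have g2 := sum_le_sum g1
  rw [sum_const, card_univ, Fintype.card_fin, nsmul_eq_mul] at g2
  calc M ^ (k + 1) * (∑ n ∈ Icc 1 y, (lamI (n : ℤ) - lamP n) + ∑ i, ∑ n ∈ Icc 1 y, (lamI (ε i * (n : ℤ) + h i) - lamP (ε i * (n : ℤ) + h i)))
      ≤ M ^ (k + 1) * (2 * √(X : ℝ) * Real.log X + k * (2 * √(X : ℝ) * Real.log X)) := by
        apply mul_le_mul_of_nonneg_left _ (by positivity)
        exact add_le_add g0 g2
    _ = _ := by ring

/-- the sum over all classes -/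
lemma sum_classes (y q : ℕ) (hq : 1 ≤ q) (F : ℕ → ℝ) :
    ∑ r ∈ range q, ∑ m ∈ (Icc 1 y).filter (fun m => m ≡ r [MOD q]), F m = ∑ m ∈ Icc 1 y, F m := by
  rw [← sum_fiberwise_of_maps_to (s := Icc 1 y) (t := range q) (g := fun m => m % q) (fun m _ => mem_range.2 (Nat.mod_lt _ hq))]
  refine sum_congr rfl fun r hr => ?_
  rw [mem_range] at hr
  apply sum_congr _ fun _ _ => rfl
  apply filter_congr
  intro m _
  unfold Nat.ModEq
  rw [Nat.mod_eq_of_lt hr]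

lemma ppT_sq {k : ℕ} (ε : Fin k → ℤ) (h : Fin k → ℤ) (y q : ℕ) (hq : 1 ≤ q)
    (hnn : ∀ m ∈ Icc 1 y, 0 ≤ tL ε h m - tP ε h m) (P : ℝ) (hP : ∑ m ∈ Icc 1 y, (tL ε h m - tP ε h m) ≤ P) :
    ∑ r ∈ range q, ppT ε h y q r ^ 2 ≤ P ^ 2 := by
  have h0 : ∀ r, 0 ≤ ppT ε h y q r := fun r => sum_nonneg fun m hm => hnn m (mem_filter.1 hm).1
  have h1 : ∑ r ∈ range q, ppT ε h y q r ≤ P := by
    unfold ppT
    rw [sum_classes y q hq]
    exact hP
  have h2 : 0 ≤ ∑ r ∈ range q, ppT ε h y q r := sum_nonneg fun r _ => h0 r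
  calc ∑ r ∈ range q, ppT ε h y q r ^ 2 ≤ (∑ r ∈ range q, ppT ε h y q r) ^ 2 := by
        rw [sq (∑ r ∈ range q, ppT ε h y q r), sum_mul_sum]
        refine sum_le_sum fun r hr => ?_
        rw [sq]
        exact single_le_sum (f := fun j => ppT ε h y q r * ppT ε h y q j) (fun j _ => mul_nonneg (h0 r) (h0 j)) hr
    _ ≤ P ^ 2 := pow_le_pow_left₀ h2 h1 2

/-- the residues coprime to `q` -/
def redF (F : ℤ → ℤ) (q : ℕ) : Finset ℕ := (range q).filter (fun r : ℕ => Int.gcd (F r) q = 1)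

lemma redF_card (F : ℤ → ℤ) (q : ℕ) : (redF F q).card = phF F q := rfl

/-- one class -/
lemma one_classK {k : ℕ} (ε : Fin k → ℤ) (hε : ∀ i, ε i = 1 ∨ ε i = -1) (h : Fin k → ℤ) (z N G q r y M : ℕ) (S R LL : ℝ)
    (hN : 1 ≤ N) (hG : 1 ≤ G) (hq : 1 ≤ q) (hM : M ≤ N) (hy : y ≤ M) (hLL : 1 ≤ LL)
    (hrange : ∀ i, ∀ m ∈ Icc 1 M, 1 ≤ ε i * (m : ℤ) + h i ∧ ε i * (m : ℤ) + h i ≤ (2 * N : ℕ))
    (hbd : ∀ x ∈ Icc (1 : ℤ) (2 * N : ℕ), Lm x ≤ LL ∧ Md z x ≤ LL)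
    (hnn : ∀ m ∈ Icc 1 M, 0 ≤ tL ε h m - tP ε h m)
    (hR : |((Vz z)⁻¹) ^ (k + 1) * ((((Icc 1 y).filter (fun n => n ≡ r [MOD q])).filter
      (fun n : ℕ => ∀ p ∈ pz z, ¬ (p : ℤ) ∣ Fa (fun i => ε i * h i) n)).card : ℝ) - S * y| ≤ R) :
    ∃ j ∈ range (G + 1), |thT ε h y q r - S * y| ≤
      ppT ε h M q r + |Ek z (2 * N) ε q r (j * N / G) h| + LL ^ (k + 1) * (((N : ℝ) / G + 1) / q + 1) + R := by
  obtain ⟨j, hj, hj1, hj2⟩ := grid_pos N G y hN hG (hy.trans hM)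
  refine ⟨j, mem_range.2 (by omega), ?_⟩
  have hLL0 : 0 ≤ LL := by linarith
  have hq0 : (0 : ℝ) < q := by exact_mod_cast hq
  -- the cut is trivial
  have hcut : ∀ (g : ℤ → ℝ), ∀ m ∈ Icc 1 M, ∀ i, cut (2 * N) g (ε i * m + h i) = g (ε i * m + h i) := by
    intro g m hm i
    unfold cut
    rw [if_pos (hrange i m hm)]
  have hIcc : ∀ m ∈ Icc 1 M, ((m : ℕ) : ℤ) ∈ Icc (1 : ℤ) (2 * N : ℕ) := by
    intro m hm
    rw [mem_Icc] at hm
    rw [mem_Icc]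
    constructor <;> omega
  have hprodL : ∀ m ∈ Icc 1 M, |Lm m * ∏ i, cut (2 * N) Lm (ε i * m + h i) -
    Md z m * ∏ i, cut (2 * N) (Md z) (ε i * m + h i)| ≤ LL ^ (k + 1) := by
    intro m hm
    have a1 : 0 ≤ ∏ i, cut (2 * N) Lm (ε i * m + h i) ∧ ∏ i, cut (2 * N) Lm (ε i * m + h i) ≤ LL ^ k := by
      constructor
      · apply prod_nonneg
        intro i _
        rw [hcut _ m hm i]
        exact Lm_nonneg _
      · calc ∏ i, cut (2 * N) Lm (ε i * m + h i) ≤ ∏ _i : Fin k, LL := by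
              apply prod_le_prod
              · intro i _
                rw [hcut _ m hm i]
                exact Lm_nonneg _
              · intro i _
                rw [hcut _ m hm i]
                exact (hbd _ (mem_Icc.2 (hrange i m hm))).1
          _ = LL ^ k := by rw [prod_const, card_univ, Fintype.card_fin]
    have a2 : 0 ≤ ∏ i, cut (2 * N) (Md z) (ε i * m + h i) ∧ ∏ i, cut (2 * N) (Md z) (ε i * m + h i) ≤ LL ^ k := by
      constructor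
      · apply prod_nonneg
        intro i _
        rw [hcut _ m hm i]
        exact Md_nonneg _ _
      · calc ∏ i, cut (2 * N) (Md z) (ε i * m + h i) ≤ ∏ _i : Fin k, LL := by
              apply prod_le_prod
              · intro i _
                rw [hcut _ m hm i]
                exact Md_nonneg _ _
              · intro i _
                rw [hcut _ m hm i]
                exact (hbd _ (mem_Icc.2 (hrange i m hm))).2
          _ = LL ^ k := by rw [prod_const, card_univ, Fintype.card_fin]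
    have b1 := Lm_nonneg (m : ℤ)
    have b2 := Md_nonneg z (m : ℤ)
    have b3 := hbd _ (hIcc m hm)
    have c1 : Lm (m : ℤ) * ∏ i, cut (2 * N) Lm (ε i * m + h i) ≤ LL * LL ^ k := mul_le_mul b3.1 a1.2 a1.1 hLL0
    have c2 : Md z (m : ℤ) * ∏ i, cut (2 * N) (Md z) (ε i * m + h i) ≤ LL * LL ^ k := mul_le_mul b3.2 a2.2 a2.1 hLL0
    have c3 := mul_nonneg b1 a1.1
    have c4 := mul_nonneg b2 a2.1
    have e : LL ^ (k + 1) = LL * LL ^ k := by ring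
    rw [e, abs_le]
    constructor <;> linarith
  have hEk := class_diff (fun m : ℕ => Lm m * ∏ i, cut (2 * N) Lm (ε i * m + h i) -
    Md z m * ∏ i, cut (2 * N) (Md z) (ε i * m + h i)) (LL ^ (k + 1)) (by positivity) (j * N / G) y q r hq hj1
    (fun m hm => hprodL m (by rw [mem_Icc] at hm ⊢; omega))
  have hEk' : |Ek z (2 * N) ε q r y h| ≤ |Ek z (2 * N) ε q r (j * N / G) h| + LL ^ (k + 1) * (((N : ℝ) / G + 1) / q + 1) := by
    refine hEk.trans ?_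
    apply add_le_add le_rfl
    apply mul_le_mul_of_nonneg_left _ (by positivity)
    apply add_le_add _ le_rfl
    exact div_le_div_of_nonneg_right hj2 hq0.le
  -- the decomposition
  have hmem : ∀ m ∈ (Icc 1 y).filter (fun n => n ≡ r [MOD q]), m ∈ Icc 1 M := by
    intro m hm
    rw [mem_filter, mem_Icc] at hm
    rw [mem_Icc]
    omega
  have e1 : Ek z (2 * N) ε q r y h = (thT ε h y q r + ppT ε h y q r) -
      ((Vz z)⁻¹) ^ (k + 1) * ((((Icc 1 y).filter (fun n => n ≡ r [MOD q])).filter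
      (fun n : ℕ => ∀ p ∈ pz z, ¬ (p : ℤ) ∣ Fa (fun i => ε i * h i) n)).card : ℝ) := by
    unfold Ek thT ppT
    rw [sum_sub_distrib, ← sum_add_distrib]
    congr 1
    · refine sum_congr rfl fun m hm => ?_
      unfold tL
      have h5 := hmem m hm
      rw [prod_congr rfl fun i _ => hcut Lm m h5 i]
      ring
    · have h6 : ∀ m ∈ (Icc 1 y).filter (fun n => n ≡ r [MOD q]), Md z m * ∏ i, cut (2 * N) (Md z) (ε i * m + h i) =
          if ∀ p ∈ pz z, ¬ (p : ℤ) ∣ Fa (fun i => ε i * h i) m then ((Vz z)⁻¹) ^ (k + 1) else 0 := by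
        intro m hm
        have h5 := hmem m hm
        exact model_eq ε hε z (2 * N) m h (mem_Icc.1 h5).1 (fun i => hrange i m h5)
      rw [sum_congr rfl h6, ← sum_filter, sum_const, nsmul_eq_mul, mul_comm]
  have h7 : 0 ≤ ppT ε h y q r ∧ ppT ε h y q r ≤ ppT ε h M q r := by
    constructor
    · exact sum_nonneg fun m hm => hnn m (hmem m hm)
    · unfold ppT
      apply sum_le_sum_of_subset_of_nonneg
      · apply filter_subset_filter
        exact Icc_subset_Icc le_rfl hy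
      · intro m hm _
        exact hnn m (mem_filter.1 hm).1
  have h8 := abs_le.1 hR
  have h9 := abs_le.1 hEk'
  have h10 := neg_abs_le (Ek z (2 * N) ε q r y h)
  have h11 := le_abs_self (Ek z (2 * N) ε q r y h)
  rw [abs_le]
  constructor <;> linarith

theorem det_mainK {k : ℕ} (ε : Fin k → ℤ) (hε : ∀ i, ε i = 1 ∨ ε i = -1) (h : Fin k → ℤ) (z N G Q M : ℕ)
    (S δ ρ1 ρ2 P LL : ℝ) (hN : 1 ≤ N) (hG : 1 ≤ G) (hM : M ≤ N) (hδ : 0 ≤ δ) (hρ1 : 0 ≤ ρ1) (hρ2 : 0 ≤ ρ2) (hLL : 1 ≤ LL)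
    (hrange : ∀ i, ∀ m ∈ Icc 1 M, 1 ≤ ε i * (m : ℤ) + h i ∧ ε i * (m : ℤ) + h i ≤ (2 * N : ℕ))
    (hbd : ∀ x ∈ Icc (1 : ℤ) (2 * N : ℕ), Lm x ≤ LL ∧ Md z x ≤ LL)
    (hnn : ∀ m ∈ Icc 1 M, 0 ≤ tL ε h m - tP ε h m) (hP : ∑ m ∈ Icc 1 M, (tL ε h m - tP ε h m) ≤ P)
    (hflc : ∀ q r y : ℕ, 1 ≤ q → r < q → Int.gcd (Fa (fun i => ε i * h i) r) q = 1 →
      |((Vz z)⁻¹) ^ (k + 1) * ((((Icc 1 y).filter (fun n => n ≡ r [MOD q])).filter
      (fun n : ℕ => ∀ p ∈ pz z, ¬ (p : ℤ) ∣ Fa (fun i => ε i * h i) n)).card : ℝ) -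
        ((Vz z)⁻¹) ^ (k + 1) * ((y : ℝ) / q * GF (Fa (fun i => ε i * h i)) z q)| ≤ ρ1 * ((y : ℝ) / q) + ρ2)
    (hloc : ∀ q : ℕ, 1 ≤ q → (∀ p ∈ q.primeFactors, rho (Fa (fun i => ε i * h i)) p < p) →
      |((Vz z)⁻¹) ^ (k + 1) * GF (Fa (fun i => ε i * h i)) z q - S / FqK (fun i => ε i * h i) q| ≤ (q.divisors.card : ℝ) ^ (k + 2) * δ)
    (y : ℕ → ℕ → ℕ) (hy : ∀ q r, y q r ≤ M) :
    ∑ q ∈ Icc 1 Q, ∑ r ∈ redF (Fa (fun i => ε i * h i)) q,
      (thT ε h (y q r) q r - S / phF (Fa (fun i => ε i * h i)) q * y q r) ^ 2 ≤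
      4 * (∑ j ∈ range (G + 1), ∑ q ∈ Icc 1 Q, ∑ r ∈ range q, Ek z (2 * N) ε q r (j * N / G) h ^ 2) +
        8 * (N : ℝ) ^ 2 * (ρ1 + δ) ^ 2 * (1 + Real.log Q) ^ (2 ^ (2 * (k + 2))) + 8 * (Q : ℝ) ^ 2 * ρ2 ^ 2 +
        4 * (Q : ℝ) * P ^ 2 + 4 * (LL ^ (k + 1)) ^ 2 * (2 * ((N : ℝ) / G + 1) ^ 2 * (1 + Real.log Q) + 2 * (Q : ℝ) ^ 2) := by
  set a : Fin k → ℤ := fun i => ε i * h i with ha
  have hN0 : (0 : ℝ) ≤ N := Nat.cast_nonneg _
  set W : ℕ → ℝ := fun q => LL ^ (k + 1) * (((N : ℝ) / G + 1) / q + 1) with hW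
  set R : ℕ → ℝ := fun q => (N : ℝ) / q * ((q.divisors.card : ℝ) ^ (k + 2) * (ρ1 + δ)) + ρ2 with hR
  have hpp0 : ∀ q r, 0 ≤ ppT ε h M q r := fun q r => sum_nonneg fun m hm => hnn m (mem_filter.1 hm).1
  -- one class
  have key : ∀ q ∈ Icc 1 Q, ∀ r ∈ redF (Fa a) q, (thT ε h (y q r) q r - S / phF (Fa a) q * y q r) ^ 2 ≤
      4 * (∑ j ∈ range (G + 1), Ek z (2 * N) ε q r (j * N / G) h ^ 2) + 4 * R q ^ 2 + 4 * ppT ε h M q r ^ 2 + 4 * W q ^ 2 := by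
    intro q hq r hr
    rw [mem_Icc] at hq
    unfold redF at hr
    rw [mem_filter, mem_range] at hr
    have hq0 : (0 : ℝ) < q := by exact_mod_cast hq.1
    have hd := dcard_pos q hq.1
    have hd3 : (1 : ℝ) ≤ (q.divisors.card : ℝ) ^ (k + 2) := one_le_pow₀ hd
    have hrho : ∀ p ∈ q.primeFactors, rho (Fa a) p < p := fun p hp => rho_lt a q r hr.2 p hp
    have hFp := FqK_pos a q hrho
    have hRq : |((Vz z)⁻¹) ^ (k + 1) * ((((Icc 1 (y q r)).filter (fun n => n ≡ r [MOD q])).filter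
      (fun n : ℕ => ∀ p ∈ pz z, ¬ (p : ℤ) ∣ Fa a n)).card : ℝ) - S / phF (Fa a) q * y q r| ≤ R q := by
      have h1 := hflc q r (y q r) hq.1 hr.1 hr.2
      have h2 := hloc q hq.1 hrho
      have hy1 : ((y q r : ℕ) : ℝ) / q ≤ N / q := div_le_div_of_nonneg_right (by exact_mod_cast (hy q r).trans hM) hq0.le
      have hy0 : 0 ≤ ((y q r : ℕ) : ℝ) / q := by positivity
      set CC := ((((Icc 1 (y q r)).filter (fun n => n ≡ r [MOD q])).filter
        (fun n : ℕ => ∀ p ∈ pz z, ¬ (p : ℤ) ∣ Fa a n)).card : ℝ)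
      have e1 : ((Vz z)⁻¹) ^ (k + 1) * CC - S / phF (Fa a) q * y q r = (((Vz z)⁻¹) ^ (k + 1) * CC -
          ((Vz z)⁻¹) ^ (k + 1) * (((y q r : ℕ) : ℝ) / q * GF (Fa a) z q)) +
          ((y q r : ℕ) : ℝ) / q * (((Vz z)⁻¹) ^ (k + 1) * GF (Fa a) z q - S / FqK a q) := by
        rw [phF_FqK a q hq.1]
        field_simp
        ring
      rw [e1]
      refine (abs_add_le _ _).trans ?_
      rw [abs_mul, abs_of_nonneg hy0]
      have h3 : ((y q r : ℕ) : ℝ) / q * |((Vz z)⁻¹) ^ (k + 1) * GF (Fa a) z q - S / FqK a q| ≤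
          N / q * ((q.divisors.card : ℝ) ^ (k + 2) * δ) :=
        mul_le_mul hy1 h2 (abs_nonneg _) (by positivity)
      have h4 : ρ1 * (((y q r : ℕ) : ℝ) / q) ≤ N / q * ((q.divisors.card : ℝ) ^ (k + 2) * ρ1) := by
        have h5 : ρ1 * (((y q r : ℕ) : ℝ) / q) ≤ ρ1 * (N / q) := mul_le_mul_of_nonneg_left hy1 hρ1
        have h6 : (N : ℝ) / q * ρ1 ≤ N / q * ((q.divisors.card : ℝ) ^ (k + 2) * ρ1) := by
          apply mul_le_mul_of_nonneg_left _ (by positivity)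
          nlinarith
        linarith
      rw [hR]
      simp only
      have e2 : (N : ℝ) / q * ((q.divisors.card : ℝ) ^ (k + 2) * (ρ1 + δ)) = N / q * ((q.divisors.card : ℝ) ^ (k + 2) * ρ1) +
          N / q * ((q.divisors.card : ℝ) ^ (k + 2) * δ) := by ring
      linarith
    obtain ⟨j, hj, hb⟩ := one_classK ε hε h z N G q r (y q r) M (S / phF (Fa a) q) (R q) LL hN hG hq.1 hM (hy q r) hLL hrange hbd
      hnn hRq
    have hj2 : Ek z (2 * N) ε q r (j * N / G) h ^ 2 ≤ ∑ j ∈ range (G + 1), Ek z (2 * N) ε q r (j * N / G) h ^ 2 :=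
      single_le_sum (f := fun j => Ek z (2 * N) ε q r (j * N / G) h ^ 2) (fun _ _ => sq_nonneg _) hj
    have h2 : (thT ε h (y q r) q r - S / phF (Fa a) q * y q r) ^ 2 ≤
        (ppT ε h M q r + |Ek z (2 * N) ε q r (j * N / G) h| + W q + R q) ^ 2 := by
      rw [← sq_abs (thT ε h (y q r) q r - S / phF (Fa a) q * y q r)]
      exact pow_le_pow_left₀ (abs_nonneg _) hb 2
    have h3 : |Ek z (2 * N) ε q r (j * N / G) h| ^ 2 = Ek z (2 * N) ε q r (j * N / G) h ^ 2 := sq_abs _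
    set u1 := ppT ε h M q r
    set u2 := |Ek z (2 * N) ε q r (j * N / G) h|
    set u3 := W q
    set u4 := R q
    have h4 : (u1 + u2 + u3 + u4) ^ 2 ≤ 4 * u2 ^ 2 + 4 * u4 ^ 2 + 4 * u1 ^ 2 + 4 * u3 ^ 2 := by
      nlinarith [sq_nonneg (u1 - u2), sq_nonneg (u1 - u3), sq_nonneg (u1 - u4), sq_nonneg (u2 - u3), sq_nonneg (u2 - u4), sq_nonneg (u3 - u4)]
    linarith
  have hsub : ∀ q ∈ Icc 1 Q, ∀ F : ℕ → ℝ, (∀ r, 0 ≤ F r) → ∑ r ∈ redF (Fa a) q, F r ≤ ∑ r ∈ range q, F r := by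
    intro q _ F hF
    exact sum_le_sum_of_subset_of_nonneg (filter_subset _ _) fun _ _ _ => hF _
  -- the first term
  have t1 : ∑ q ∈ Icc 1 Q, ∑ r ∈ redF (Fa a) q, ∑ j ∈ range (G + 1), Ek z (2 * N) ε q r (j * N / G) h ^ 2 ≤
      ∑ j ∈ range (G + 1), ∑ q ∈ Icc 1 Q, ∑ r ∈ range q, Ek z (2 * N) ε q r (j * N / G) h ^ 2 := by
    rw [sum_comm (s := range (G + 1))]
    refine sum_le_sum fun q hq => ?_
    rw [sum_comm (s := range (G + 1))]
    exact hsub q hq _ fun r => sum_nonneg fun _ _ => sq_nonneg _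
  have t2 : ∑ q ∈ Icc 1 Q, ∑ _r ∈ redF (Fa a) q, R q ^ 2 ≤ 2 * (N : ℝ) ^ 2 * (ρ1 + δ) ^ 2 * (1 + Real.log Q) ^ (2 ^ (2 * (k + 2))) +
      2 * (Q : ℝ) ^ 2 * ρ2 ^ 2 := by
    have hs := W37.RK.sum_card_pow_div (2 * (k + 2)) Q
    have h1 : ∀ q ∈ Icc 1 Q, ∑ _r ∈ redF (Fa a) q, R q ^ 2 ≤
        2 * (N : ℝ) ^ 2 * (ρ1 + δ) ^ 2 * ((q.divisors.card : ℝ) ^ (2 * (k + 2)) / q) + 2 * Q * ρ2 ^ 2 := by
      intro q hq
      have hq' := mem_Icc.1 hq
      have hq0 : (0 : ℝ) < q := by exact_mod_cast hq'.1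
      have hqQ : (q : ℝ) ≤ Q := by exact_mod_cast hq'.2
      refine (hsub q hq _ fun _ => sq_nonneg _).trans ?_
      rw [sum_const, nsmul_eq_mul, card_range]
      have h2 : R q ^ 2 ≤ 2 * ((N : ℝ) / q * ((q.divisors.card : ℝ) ^ (k + 2) * (ρ1 + δ))) ^ 2 + 2 * ρ2 ^ 2 := by
        rw [hR]
        simp only
        nlinarith [sq_nonneg ((N : ℝ) / q * ((q.divisors.card : ℝ) ^ (k + 2) * (ρ1 + δ)) - ρ2)]
      calc (q : ℝ) * R q ^ 2 ≤ q * (2 * ((N : ℝ) / q * ((q.divisors.card : ℝ) ^ (k + 2) * (ρ1 + δ))) ^ 2 + 2 * ρ2 ^ 2) :=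
            mul_le_mul_of_nonneg_left h2 hq0.le
        _ = 2 * (N : ℝ) ^ 2 * (ρ1 + δ) ^ 2 * ((q.divisors.card : ℝ) ^ (2 * (k + 2)) / q) + 2 * q * ρ2 ^ 2 := by
            rw [mul_comm 2 (k + 2), pow_mul]
            field_simp
        _ ≤ _ := by
            have : 2 * (q : ℝ) * ρ2 ^ 2 ≤ 2 * Q * ρ2 ^ 2 := by
              apply mul_le_mul_of_nonneg_right _ (sq_nonneg _)
              linarith
            linarith
    refine (sum_le_sum h1).trans ?_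
    rw [sum_add_distrib, ← mul_sum, sum_const, Nat.card_Icc, Nat.add_sub_cancel, nsmul_eq_mul]
    have h3 := mul_le_mul_of_nonneg_left hs (show 0 ≤ 2 * (N : ℝ) ^ 2 * (ρ1 + δ) ^ 2 by positivity)
    have e1 : (Q : ℝ) * (2 * Q * ρ2 ^ 2) = 2 * (Q : ℝ) ^ 2 * ρ2 ^ 2 := by ring
    linarith
  have t3 : ∑ q ∈ Icc 1 Q, ∑ r ∈ redF (Fa a) q, ppT ε h M q r ^ 2 ≤ (Q : ℝ) * P ^ 2 := by
    calc ∑ q ∈ Icc 1 Q, ∑ r ∈ redF (Fa a) q, ppT ε h M q r ^ 2 ≤ ∑ _q ∈ Icc 1 Q, P ^ 2 := by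
          refine sum_le_sum fun q hq => ?_
          refine (hsub q hq _ fun r => sq_nonneg _).trans ?_
          exact ppT_sq ε h M q (mem_Icc.1 hq).1 hnn P hP
      _ = (Q : ℝ) * P ^ 2 := by
          rw [sum_const, Nat.card_Icc, Nat.add_sub_cancel, nsmul_eq_mul]
  have t4 : ∑ q ∈ Icc 1 Q, ∑ _r ∈ redF (Fa a) q, W q ^ 2 ≤ (LL ^ (k + 1)) ^ 2 *
      (2 * ((N : ℝ) / G + 1) ^ 2 * (1 + Real.log Q) + 2 * (Q : ℝ) ^ 2) := by
    have hs := mul_le_mul_of_nonneg_left (err_sum Q ((N : ℝ) / G + 1)) (show 0 ≤ (LL ^ (k + 1)) ^ 2 by positivity)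
    refine le_trans ?_ hs
    rw [mul_sum]
    refine sum_le_sum fun q hq => ?_
    rw [mul_sum]
    refine (hsub q hq _ fun _ => sq_nonneg _).trans ?_
    refine sum_le_sum fun r _ => ?_
    rw [hW]
    simp only
    rw [mul_pow]
  calc ∑ q ∈ Icc 1 Q, ∑ r ∈ redF (Fa a) q, (thT ε h (y q r) q r - S / phF (Fa a) q * y q r) ^ 2
      ≤ ∑ q ∈ Icc 1 Q, ∑ r ∈ redF (Fa a) q, (4 * (∑ j ∈ range (G + 1), Ek z (2 * N) ε q r (j * N / G) h ^ 2) +
          4 * R q ^ 2 + 4 * ppT ε h M q r ^ 2 + 4 * W q ^ 2) := sum_le_sum fun q hq => sum_le_sum fun r hr => key q hq r hr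
    _ = 4 * (∑ q ∈ Icc 1 Q, ∑ r ∈ redF (Fa a) q, ∑ j ∈ range (G + 1), Ek z (2 * N) ε q r (j * N / G) h ^ 2) +
          4 * (∑ q ∈ Icc 1 Q, ∑ _r ∈ redF (Fa a) q, R q ^ 2) + 4 * (∑ q ∈ Icc 1 Q, ∑ r ∈ redF (Fa a) q, ppT ε h M q r ^ 2) +
          4 * (∑ q ∈ Icc 1 Q, ∑ _r ∈ redF (Fa a) q, W q ^ 2) := by
        simp only [sum_add_distrib, mul_sum]
    _ ≤ _ := by linarith

end Pool.Agent.H735K
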