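import Pool.Agent.H735K.DetK

/-!
The parameters, for one tuple.
-/

set_option autoImplicit false

namespace Pool.Agent.H735K

open Finset
open Pool.Agent.H373R2.T7 (pz Vz lamz mem_pz Vz_pos Vz_le_one nuP nuP_le singZ singZ_nonneg singZ_le lamP lamI Vz_inv_small
  badP card_badP natlog_le Kc sing_limit)

/-- the second moments -/
noncomputable def S2K {k : ℕ} (z N Q G : ℕ) (ε h : Fin k → ℤ) : ℝ :=
  ∑ j ∈ range (G + 1), ∑ q ∈ Icc 1 Q, ∑ r ∈ range q, Ek z (2 * N) ε q r (j * N / G) h ^ 2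

lemma S2K_nn {k : ℕ} (z N Q G : ℕ) (ε h : Fin k → ℤ) : 0 ≤ S2K z N Q G ε h :=
  sum_nonneg fun _ _ => sum_nonneg fun _ _ => sum_nonneg fun _ _ => sq_nonneg _

lemma S2K_mono {k : ℕ} (z N Q Q' G : ℕ) (hQ : Q ≤ Q') (ε h : Fin k → ℤ) : S2K z N Q G ε h ≤ S2K z N Q' G ε h := by
  unfold S2K
  refine sum_le_sum fun j _ => ?_
  apply sum_le_sum_of_subset_of_nonneg (Icc_subset_Icc le_rfl hQ)
  intro _ _ _
  exact sum_nonneg fun _ _ => sq_nonneg _

lemma w2_num (A e U : ℕ) (hU : A + 3 + e ≤ U) (N L σ lq : ℝ) (hN : 0 ≤ N) (hL1 : 1 ≤ L) (hσ0 : 0 ≤ σ) (hσ : σ ≤ 2 / L ^ U)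
    (hl0 : 0 ≤ lq) (hl : lq ≤ 2 * L) : 8 * N ^ 2 * σ ^ 2 * lq ^ e ≤ 2 ^ (e + 5) * (N ^ 2 / L ^ (A + 3)) := by
  have hL0 : 0 < L := by linarith
  calc 8 * N ^ 2 * σ ^ 2 * lq ^ e ≤ 8 * N ^ 2 * (2 / L ^ U) ^ 2 * (2 * L) ^ e := by gcongr
    _ = 2 ^ (e + 5) * (N ^ 2 * (L ^ e / (L ^ U) ^ 2)) := by
        rw [mul_pow 2 L e, div_pow, pow_add]
        ring
    _ ≤ 2 ^ (e + 5) * (N ^ 2 * (1 / L ^ (A + 3))) := by
        apply mul_le_mul_of_nonneg_left _ (by positivity)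
        apply mul_le_mul_of_nonneg_left _ (by positivity)
        rw [div_le_div_iff₀ (by positivity) (by positivity), one_mul, ← pow_mul, ← pow_add]
        exact pow_le_pow_right₀ hL1 (by omega)
    _ = _ := by ring

lemma w4_num (A k : ℕ) (N L Q P : ℝ) (hN : 0 < N) (hL1 : 1 ≤ L) (hQ0 : 0 ≤ Q) (hQ : Q ≤ N / L ^ (A + 2 * k + 7)) (hP0 : 0 ≤ P)
    (hP : P ≤ (k + 1) * (2 * L) ^ (k + 1) * (8 * √N * L)) :
    4 * Q * P ^ 2 ≤ 256 * (k + 1 : ℝ) ^ 2 * 2 ^ (2 * k + 2) * (N ^ 2 / L ^ (A + 3)) := by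
  have hL0 : 0 < L := by linarith
  have hk : (0 : ℝ) ≤ k := Nat.cast_nonneg k
  calc 4 * Q * P ^ 2 ≤ 4 * (N / L ^ (A + 2 * k + 7)) * ((k + 1) * (2 * L) ^ (k + 1) * (8 * √N * L)) ^ 2 := by gcongr
    _ = 256 * (k + 1 : ℝ) ^ 2 * 2 ^ (2 * k + 2) * (N * (√N) ^ 2 * (L ^ (2 * k + 4) / L ^ (A + 2 * k + 7))) := by
        rw [mul_pow 2 L (k + 1)]
        ring
    _ = _ := by
        rw [Real.sq_sqrt hN.le, show A + 2 * k + 7 = (2 * k + 4) + (A + 3) by ring, pow_add L (2 * k + 4) (A + 3)]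
        field_simp

lemma w5_num (A k : ℕ) (N L Q W lq : ℝ) (hN : 0 < N) (hL1 : 1 ≤ L) (hQ0 : 0 ≤ Q) (hQ : Q ≤ N / L ^ (A + 2 * k + 7))
    (hW0 : 0 ≤ W) (hW : W ≤ 2 * N / L ^ (A + k + 6)) (hl0 : 0 ≤ lq) (hl : lq ≤ 2 * L) :
    4 * ((2 * L) ^ (k + 1)) ^ 2 * (2 * W ^ 2 * lq + 2 * Q ^ 2) ≤ 72 * 2 ^ (2 * k + 2) * (N ^ 2 / L ^ (A + 3)) := by
  have hL0 : 0 < L := by linarith
  have h1 : 2 * W ^ 2 * lq ≤ 16 * (N ^ 2 / L ^ (A + 3 + (2 * k + 2))) := by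
    calc 2 * W ^ 2 * lq ≤ 2 * (2 * N / L ^ (A + k + 6)) ^ 2 * (2 * L) := by gcongr
      _ = 16 * (N ^ 2 * (L / (L ^ (A + k + 6)) ^ 2)) := by rw [div_pow]; ring
      _ ≤ 16 * (N ^ 2 * (1 / L ^ (A + 3 + (2 * k + 2)))) := by
          apply mul_le_mul_of_nonneg_left _ (by norm_num)
          apply mul_le_mul_of_nonneg_left _ (by positivity)
          rw [div_le_div_iff₀ (by positivity) (by positivity), one_mul, ← pow_mul, ← pow_succ']
          exact pow_le_pow_right₀ hL1 (by omega)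
      _ = _ := by ring
  have h2 : 2 * Q ^ 2 ≤ 2 * (N ^ 2 / L ^ (A + 3 + (2 * k + 2))) := by
    apply mul_le_mul_of_nonneg_left _ (by norm_num)
    calc Q ^ 2 ≤ (N / L ^ (A + 2 * k + 7)) ^ 2 := pow_le_pow_left₀ hQ0 hQ 2
      _ = N ^ 2 * (1 / (L ^ (A + 2 * k + 7)) ^ 2) := by rw [div_pow]; ring
      _ ≤ N ^ 2 * (1 / L ^ (A + 3 + (2 * k + 2))) := by
          apply mul_le_mul_of_nonneg_left _ (by positivity)
          rw [← pow_mul]
          apply one_div_le_one_div_of_le (by positivity)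
          exact pow_le_pow_right₀ hL1 (by omega)
      _ = _ := by ring
  calc 4 * ((2 * L) ^ (k + 1)) ^ 2 * (2 * W ^ 2 * lq + 2 * Q ^ 2)
      ≤ 4 * ((2 * L) ^ (k + 1)) ^ 2 * (18 * (N ^ 2 / L ^ (A + 3 + (2 * k + 2)))) := by
        apply mul_le_mul_of_nonneg_left _ (by positivity)
        linarith
    _ = _ := by
        rw [pow_add L (A + 3) (2 * k + 2), mul_pow 2 L (k + 1), mul_pow, ← pow_mul, ← pow_mul,
          show (k + 1) * 2 = 2 * k + 2 by ring]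
        field_simp
        ring

/-- the size of the constant in the tail of the singular series -/
lemma Kc_le {k : ℕ} (N : ℕ) (hN : 1 ≤ N) (L : ℝ) (hLN : L = Real.log N) (hL : (k + 1 : ℝ) ^ 2 + 16 * (k + 1) * (k + k * k) + 1 ≤ L)
    (ε h : Fin k → ℤ) (hε : ∀ i, ε i = 1 ∨ ε i = -1) (hh : ∀ i, 1 ≤ h i ∧ h i ≤ N) :
    Kc (fun i => ε i * h i) ≤ L ^ 2 := by
  have hN0 : (0 : ℝ) < N := by exact_mod_cast hN
  have hk : (0 : ℝ) ≤ k := Nat.cast_nonneg k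
  have hL1 : 1 ≤ L := by
    have : 0 ≤ (k + 1 : ℝ) ^ 2 + 16 * (k + 1) * (k + k * k) := by positivity
    linarith
  have hsz : ∀ i, |ε i * h i| ≤ N := by
    intro i
    have h1 := hh i
    rcases hε i with h2 | h2
    · rw [h2, one_mul, abs_le]; constructor <;> omega
    · rw [h2, abs_le]; constructor <;> omega
  have hbad := card_badP (fun i => ε i * h i) (2 * N) (fun i => by
      have := hsz i
      rw [Int.abs_eq_natAbs] at this
      omega) (fun i j => by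
      have h1 := hsz i
      have h2 := hsz j
      have h3 := abs_sub (ε i * h i) (ε j * h j)
      rw [Int.abs_eq_natAbs] at h3
      omega)
  have hlogY : (Nat.log 2 (2 * N) : ℝ) ≤ 4 * L := by
    refine (natlog_le (2 * N) (by omega)).trans ?_
    push_cast
    rw [Real.log_mul (by norm_num) hN0.ne', ← hLN]
    have := Real.log_two_lt_d9
    linarith
  unfold Kc
  have h6 : ((badP (fun i => ε i * h i)).card : ℝ) ≤ (k + k * k) * (4 * L) := by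
    have h7 : ((badP (fun i => ε i * h i)).card : ℝ) ≤ (k + k * k) * (Nat.log 2 (2 * N) : ℝ) := by exact_mod_cast hbad
    refine h7.trans ?_
    apply mul_le_mul_of_nonneg_left hlogY (by positivity)
  push_cast
  calc ((k : ℝ) + 1) ^ 2 + 4 * (k + 1) * ((badP (fun i => ε i * h i)).card : ℝ) ≤
      ((k : ℝ) + 1) ^ 2 * L + 4 * (k + 1) * ((k + k * k) * (4 * L)) := by
        apply add_le_add
        · exact le_mul_of_one_le_right (by positivity) hL1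
        · gcongr
    _ = ((k + 1 : ℝ) ^ 2 + 16 * (k + 1) * (k + k * k)) * L := by ring
    _ ≤ L * L := by
        apply mul_le_mul_of_nonneg_right _ (by linarith)
        linarith
    _ = L ^ 2 := by ring

theorem detT (k A : ℕ) : ∃ E0 : ℕ, ∀ E : ℕ, E0 ≤ E → ∃ Bd X0 : ℕ, ∀ N : ℕ, X0 ≤ N → ∀ z : ℕ, (z : ℝ) ≤ Real.log N ^ E →
    Real.log N ^ E / 2 ≤ z → ∀ G : ℕ, Real.log N ^ (A + k + 6) ≤ G →
    ∀ ε h : Fin k → ℤ, (∀ i, ε i = 1 ∨ ε i = -1) → (∀ i, 1 ≤ h i ∧ h i ≤ N) → (∀ i j, i ≠ j → ε i * h i ≠ ε j * h j) →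
    ∃ S : ℝ, Filter.Tendsto (fun z => singZ (fun i => ε i * h i) z) Filter.atTop (nhds S) ∧ S ≤ Real.log N ^ (k + 1) ∧
      ∀ M : ℕ, M ≤ N →
      (∀ i, ∀ m ∈ Icc 1 M, 1 ≤ ε i * (m : ℤ) + h i ∧ ε i * (m : ℤ) + h i ≤ (2 * N : ℕ)) →
      ∀ Q : ℕ, (Q : ℝ) ≤ N * Real.exp (-(Bd * Real.log (Real.log N) ^ 2)) →
      ∀ y : ℕ → ℕ → ℕ, (∀ q r, y q r ≤ M) →
      ∑ q ∈ Icc 1 Q, ∑ r ∈ redF (Fa (fun i => ε i * h i)) q,
        (thT ε h (y q r) q r - S / phF (Fa (fun i => ε i * h i)) q * y q r) ^ 2 ≤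
        4 * S2K z N Q G ε h + (N : ℝ) ^ 2 / Real.log N ^ (A + 2) := by
  obtain ⟨C1, z0, hC1, hz0, hflc⟩ := flcF (k + 1)
  obtain ⟨e, he⟩ : ∃ e : ℕ, e = 2 ^ (2 * (k + 2)) := ⟨_, rfl⟩
  obtain ⟨U, hU⟩ : ∃ U : ℕ, U = A + 3 + e := ⟨_, rfl⟩
  refine ⟨U + k + 3, fun E hE => ?_⟩
  obtain ⟨c2, hc2⟩ : ∃ c2 : ℕ, c2 = 3 * (U + k + 1) * E * C1 := ⟨_, rfl⟩
  obtain ⟨CC, hCC⟩ : ∃ CC : ℝ, CC = 2 ^ (e + 5) + 8 + 256 * (k + 1 : ℝ) ^ 2 * 2 ^ (2 * k + 2) + 72 * 2 ^ (2 * k + 2) := ⟨_, rfl⟩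
  obtain ⟨N1, hN1⟩ := fm_abs E
  obtain ⟨N2, hN2⟩ := ev_log (CC + ((k + 1 : ℝ) ^ 2 + 16 * (k + 1) * (k + k * k) + 1) + 3 * (k + 1) + 1000)
  obtain ⟨N4, hN4⟩ := ev_log ((z0 : ℝ) * 2)
  obtain ⟨N5, hN5⟩ := ev_log (Real.exp C1)
  obtain ⟨N6, hN6⟩ := ev_pow (A + k + 6)
  refine ⟨c2 + k + A + 2 * k + 100, N1 + N2 + N4 + N5 + N6 + 16, fun N hN z hz1 hz2 G hG ε h hε hh hdeg => ?_⟩
  set L := Real.log (N : ℝ) with hL
  have hk0 : (0 : ℝ) ≤ k := Nat.cast_nonneg k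
  have hA0 : (0 : ℝ) ≤ A := Nat.cast_nonneg A
  have hU0 : (0 : ℝ) ≤ U := Nat.cast_nonneg U
  have hCC0 : 0 ≤ CC := by rw [hCC]; positivity
  have hLb := hN2 N (by omega)
  rw [← hL] at hLb
  have hkk : 0 ≤ (k + 1 : ℝ) ^ 2 + 16 * (k + 1) * (k + k * k) := by positivity
  have hL8 : (1000 : ℝ) ≤ L := by linarith
  have hLC : CC ≤ L := by linarith
  have hLK : (k + 1 : ℝ) ^ 2 + 16 * (k + 1) * (k + k * k) + 1 ≤ L := by linarith
  have hL3 : 3 * (k + 1 : ℝ) ≤ L := by linarith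
  have hL0 : 0 < L := by linarith only [hL8]
  have hL1 : 1 ≤ L := by linarith only [hL8]
  have hNn : 1 ≤ N := by omega
  have hN0 : (0 : ℝ) < N := by exact_mod_cast hNn
  set ℓ := Real.log L with hℓ
  have hℓ1 : 1 ≤ ℓ := by
    rw [hℓ, Real.le_log_iff_exp_le hL0]
    have := Real.exp_one_lt_d9
    linarith only [this, hL8]
  have hℓ2 : ℓ ≤ ℓ ^ 2 := by nlinarith only [hℓ1]
  have hℓC : (C1 : ℝ) ≤ ℓ := by
    rw [hℓ, Real.le_log_iff_exp_le hL0]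
    exact hN5 N (by omega)
  have hLe : ∀ n : ℕ, L ^ n = Real.exp (n * ℓ) := fun n => by
    rw [mul_comm, ← Real.rpow_def_of_pos hL0, Real.rpow_natCast]
  have hLe2 : ∀ n : ℕ, L ^ n ≤ Real.exp (n * ℓ ^ 2) := by
    intro n
    rw [hLe]
    apply Real.exp_le_exp.2
    exact mul_le_mul_of_nonneg_left hℓ2 (Nat.cast_nonneg _)
  -- z
  have hLE : L ≤ L ^ E := by
    calc L = L ^ 1 := (pow_one _).symm
      _ ≤ L ^ E := pow_le_pow_right₀ hL1 (by omega)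
  have hzr : (z0 : ℝ) ≤ z := by
    have h1 := hN4 N (by omega)
    have h2 : (z0 : ℝ) * 2 ≤ L ^ E := h1.trans hLE
    linarith only [h2, hz2]
  have hzz0 : z0 ≤ z := by exact_mod_cast hzr
  have hz1' : 1 ≤ z := by omega
  have hzpos : (0 : ℝ) < z := by exact_mod_cast (by omega : 0 < z)
  have hV0 := Vz_pos z
  obtain ⟨hVL, hfm⟩ := hN1 N (by omega) z hz1' hz1
  rw [← hL] at hVL
  have hVp : 0 < (Vz z)⁻¹ := by positivity
  have hVk : ((Vz z)⁻¹) ^ (k + 1) ≤ L ^ (k + 1) := pow_le_pow_left₀ hVp.le hVL _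
  -- the singular series
  set a : Fin k → ℤ := fun i => ε i * h i with ha
  have ha0 : ∀ i, a i ≠ 0 := by
    intro i
    have h1 := hh i
    rw [ha]
    simp only
    rcases hε i with h2 | h2
    · rw [h2]; omega
    · rw [h2]; omega
  obtain ⟨S, hS, hSb⟩ := sing_limit a ha0 hdeg
  have hKc : Kc a ≤ L ^ 2 := Kc_le N hNn L hL hLK ε h hε hh
  have hKc0 : 0 ≤ Kc a := by unfold Kc; positivity
  have hL2E : 2 * L ^ 2 ≤ L ^ E := by
    calc 2 * L ^ 2 ≤ L * L ^ 2 := mul_le_mul_of_nonneg_right (by linarith only [hL8]) (by positivity)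
      _ = L ^ 3 := by ring
      _ ≤ L ^ E := pow_le_pow_right₀ hL1 (by omega)
  have hKz : Kc a ≤ z := by linarith only [hKc, hL2E, hz2]
  have h3k : 3 * (k + 1) ≤ z := by
    have h6 : (3 * ((k : ℝ) + 1)) ≤ z := by
      have : L ≤ L ^ 2 := by nlinarith only [hL1]
      linarith only [this, hL2E, hz2, hL3]
    exact_mod_cast h6
  have hSz := hSb z h3k hKz
  have hsz0 := singZ_nonneg a z
  have hszk : singZ a z ≤ L ^ k := singZ_le a z L hVL
  obtain ⟨δ, hδ⟩ : ∃ δ : ℝ, δ = |singZ a z - S| + singZ a z * ((k + 1) / z) := ⟨_, rfl⟩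
  have hδ0 : 0 ≤ δ := by rw [hδ]; positivity
  have hδb : δ ≤ 1 / L ^ U := by
    have h1 : |singZ a z - S| ≤ L ^ k * (L ^ 2 / (L ^ E / 2)) := by
      rw [abs_sub_comm]
      refine hSz.trans ?_
      apply mul_le_mul hszk _ (by positivity) (by positivity)
      exact div_le_div₀ (by positivity) hKc (by positivity) hz2
    have h2 : singZ a z * ((k + 1) / z) ≤ L ^ k * (L / (L ^ E / 2)) := by
      apply mul_le_mul hszk _ (by positivity) (by positivity)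
      apply div_le_div₀ (by positivity) _ (by positivity) hz2
      linarith only [hL3, hk0]
    have h3 : L ^ k * (L ^ 2 / (L ^ E / 2)) + L ^ k * (L / (L ^ E / 2)) = (2 * L ^ (k + 2) + 2 * L ^ (k + 1)) / L ^ E := by
      field_simp
      ring
    have h4 : (2 * L ^ (k + 2) + 2 * L ^ (k + 1)) / L ^ E ≤ 1 / L ^ U := by
      rw [div_le_div_iff₀ (by positivity) (by positivity), one_mul]
      calc (2 * L ^ (k + 2) + 2 * L ^ (k + 1)) * L ^ U ≤ (2 * L ^ (k + 2) + 2 * L ^ (k + 2)) * L ^ U := by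
            apply mul_le_mul_of_nonneg_right _ (by positivity)
            have := pow_le_pow_right₀ hL1 (show k + 1 ≤ k + 2 by omega)
            linarith only [this]
        _ = 4 * (L ^ (k + 2) * L ^ U) := by ring
        _ ≤ L * (L ^ (k + 2) * L ^ U) := mul_le_mul_of_nonneg_right (by linarith only [hL8]) (by positivity)
        _ = L ^ (U + k + 3) := by rw [← pow_add, ← pow_succ']; congr 1; ring
        _ ≤ L ^ E := pow_le_pow_right₀ hL1 hE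
    rw [hδ]
    linarith only [h1, h2, h3, h4]
  have hSup : S ≤ L ^ (k + 1) := by
    have h1 : |singZ a z - S| ≤ 1 := by
      have h2 : |singZ a z - S| ≤ δ := by
        rw [hδ]
        have : 0 ≤ singZ a z * ((k + 1) / z) := by positivity
        linarith only [this]
      have h3 : 1 / L ^ U ≤ 1 := by
        rw [div_le_one (by positivity)]
        exact one_le_pow₀ hL1
      linarith only [h2, h3, hδb]
    have h2 := (abs_le.1 h1).1
    have h3 : L ^ k * 1000 ≤ L ^ (k + 1) := by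
      rw [pow_succ]
      exact mul_le_mul_of_nonneg_left hL8 (by positivity)
    have h4 : 1 ≤ L ^ k := one_le_pow₀ hL1
    linarith only [h2, h3, h4, hszk]
  refine ⟨S, hS, hSup, fun M hMN hrange Q hQ y hy => ?_⟩
  -- b
  obtain ⟨b, hb⟩ : ∃ b : ℕ, b = ⌈2 * ((U : ℝ) + k + 1) * ℓ⌉₊ := ⟨_, rfl⟩
  have hb1 : 2 * ((U : ℝ) + k + 1) * ℓ ≤ b := by rw [hb]; exact Nat.le_ceil _
  have hb2 : (b : ℝ) ≤ 3 * ((U : ℝ) + k + 1) * ℓ := by
    have h1 : (b : ℝ) < 2 * ((U : ℝ) + k + 1) * ℓ + 1 := by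
      rw [hb]; exact Nat.ceil_lt_add_one (by positivity)
    have h2 : 1 * 1 ≤ ((U : ℝ) + k + 1) * ℓ := mul_le_mul (by linarith only [hU0, hk0]) hℓ1 (by norm_num) (by positivity)
    linarith only [h1, h2]
  have hbC : C1 ≤ b := by
    have h2 : 1 * ℓ ≤ (2 * ((U : ℝ) + k + 1)) * ℓ :=
      mul_le_mul_of_nonneg_right (by linarith only [hU0, hk0]) (by linarith only [hℓ1])
    have : (C1 : ℝ) ≤ b := by linarith only [h2, hb1, hℓC]
    exact_mod_cast this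
  have hhalf : (1 / 2 : ℝ) ^ b ≤ 1 / L ^ (U + k + 1) := by
    have h1 : (1 / 2 : ℝ) ^ b = Real.exp (-(b * Real.log 2)) := by
      rw [← Real.rpow_natCast, Real.rpow_def_of_pos (by norm_num)]
      congr 1
      rw [one_div, Real.log_inv]
      ring
    rw [h1, hLe, one_div, ← Real.exp_neg]
    apply Real.exp_le_exp.2
    have h2 := Real.log_two_gt_d9
    push_cast
    have h3 : 2 * ((U : ℝ) + k + 1) * ℓ * (1 / 2) ≤ b * Real.log 2 := by
      apply mul_le_mul hb1 _ (by norm_num) (Nat.cast_nonneg _)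
      linarith only [h2]
    linarith only [h3]
  have hzC : (z : ℝ) ^ (C1 * b) ≤ Real.exp (c2 * ℓ ^ 2) := by
    calc (z : ℝ) ^ (C1 * b) ≤ (L ^ E) ^ (C1 * b) := pow_le_pow_left₀ hzpos.le hz1 _
      _ = Real.exp (E * C1 * b * ℓ) := by
          rw [← pow_mul, hLe]
          congr 1
          push_cast
          ring
      _ ≤ Real.exp (c2 * ℓ ^ 2) := by
          apply Real.exp_le_exp.2
          rw [hc2]
          push_cast
          have h1 : (E : ℝ) * C1 * b * ℓ ≤ E * C1 * (3 * ((U : ℝ) + k + 1) * ℓ) * ℓ := by gcongr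
          linarith only [h1]
  obtain ⟨ρ1, hρ1⟩ : ∃ ρ1 : ℝ, ρ1 = ((Vz z)⁻¹) ^ (k + 1) * (1 / 2 : ℝ) ^ b := ⟨_, rfl⟩
  obtain ⟨ρ2, hρ2⟩ : ∃ ρ2 : ℝ, ρ2 = ((Vz z)⁻¹) ^ (k + 1) * (z : ℝ) ^ (C1 * b) := ⟨_, rfl⟩
  have hρ10 : 0 ≤ ρ1 := by rw [hρ1]; positivity
  have hρ20 : 0 ≤ ρ2 := by rw [hρ2]; positivity
  have hρ1b : ρ1 ≤ 1 / L ^ U := by
    calc ρ1 ≤ L ^ (k + 1) * (1 / L ^ (U + k + 1)) := by
          rw [hρ1]
          exact mul_le_mul hVk hhalf (by positivity) (by positivity)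
      _ = 1 / L ^ U := by
          rw [show U + k + 1 = U + (k + 1) by ring, pow_add L U (k + 1)]
          field_simp
  have hρ2b : ρ2 ≤ Real.exp ((c2 + k + 1) * ℓ ^ 2) := by
    calc ρ2 ≤ L ^ (k + 1) * Real.exp (c2 * ℓ ^ 2) := by
          rw [hρ2]
          exact mul_le_mul hVk hzC (by positivity) (by positivity)
      _ ≤ Real.exp (((k + 1 : ℕ) : ℝ) * ℓ ^ 2) * Real.exp (c2 * ℓ ^ 2) :=
          mul_le_mul_of_nonneg_right (hLe2 (k + 1)) (Real.exp_pos _).le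
      _ = _ := by rw [← Real.exp_add]; congr 1; push_cast; ring
  -- the model in the classes
  have hfl : ∀ q r y : ℕ, 1 ≤ q → r < q → Int.gcd (Fa a r) q = 1 →
      |((Vz z)⁻¹) ^ (k + 1) * ((((Icc 1 y).filter (fun n => n ≡ r [MOD q])).filter
        (fun n : ℕ => ∀ p ∈ pz z, ¬ (p : ℤ) ∣ Fa a n)).card : ℝ) -
        ((Vz z)⁻¹) ^ (k + 1) * ((y : ℝ) / q * GF (Fa a) z q)| ≤ ρ1 * ((y : ℝ) / q) + ρ2 := by
    intro q r y hq hr hg
    have h1 := hflc b hbC z hzz0 (Fa a) (Per_Fa a) (fun p hp => by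
      rw [rho_Fa a p hp]
      exact nuP_le a p hp) q r y hq hr hg
    rw [← mul_sub, abs_mul, abs_of_nonneg (show 0 ≤ ((Vz z)⁻¹) ^ (k + 1) by positivity)]
    calc _ ≤ ((Vz z)⁻¹) ^ (k + 1) * ((1 / 2 : ℝ) ^ b * ((y : ℝ) / q) + (z : ℝ) ^ (C1 * b)) := by
          apply mul_le_mul_of_nonneg_left _ (by positivity)
          refine le_trans (le_of_eq ?_) h1
          congr!
      _ = _ := by rw [hρ1, hρ2]; ring
  have hlocq : ∀ q : ℕ, 1 ≤ q → (∀ p ∈ q.primeFactors, rho (Fa a) p < p) →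
      |((Vz z)⁻¹) ^ (k + 1) * GF (Fa a) z q - S / FqK a q| ≤ (q.divisors.card : ℝ) ^ (k + 2) * δ := by
    intro q hq hr
    refine (locK a z q hz1' hq hr S).trans ?_
    have hd := Pool.Agent.Helper735_BDH.dcard_pos q hq
    have ho : (q.primeFactors.card : ℝ) ≤ q.divisors.card := by
      have h1 : q.primeFactors ⊆ q.divisors := by
        intro p hp
        rw [Nat.mem_divisors]
        exact ⟨Nat.dvd_of_mem_primeFactors hp, by omega⟩
      exact_mod_cast card_le_card h1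
    have h2 : singZ a z * ((k + 1) * q.primeFactors.card / z) ≤ (q.divisors.card : ℝ) * (singZ a z * ((k + 1) / z)) := by
      have e1 : singZ a z * ((k + 1) * q.primeFactors.card / z) = (q.primeFactors.card : ℝ) * (singZ a z * ((k + 1) / z)) := by ring
      rw [e1]
      exact mul_le_mul_of_nonneg_right ho (by positivity)
    have h3 : |singZ a z - S| ≤ (q.divisors.card : ℝ) * |singZ a z - S| := by
      have := mul_le_mul_of_nonneg_right hd (abs_nonneg (singZ a z - S))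
      linarith only [this]
    calc (q.divisors.card : ℝ) ^ (k + 1) * (|singZ a z - S| + singZ a z * ((k + 1) * q.primeFactors.card / z))
        ≤ (q.divisors.card : ℝ) ^ (k + 1) * ((q.divisors.card : ℝ) * |singZ a z - S| +
            (q.divisors.card : ℝ) * (singZ a z * ((k + 1) / z))) := by
          apply mul_le_mul_of_nonneg_left _ (by positivity)
          linarith only [h2, h3]
      _ = _ := by rw [hδ]; ring
  -- prime powers
  have h2N0 : (0 : ℝ) < ((2 * N : ℕ) : ℝ) := by push_cast; linarith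
  have hlog2N : Real.log ((2 * N : ℕ) : ℝ) ≤ 2 * L := by
    push_cast
    rw [Real.log_mul (by norm_num) hN0.ne', ← hL]
    have := Real.log_two_lt_d9
    linarith only [this, hL8]
  have h2L1 : (1 : ℝ) ≤ 2 * L := by linarith only [hL1]
  have hnn : ∀ m ∈ Icc 1 M, 0 ≤ tL ε h m - tP ε h m := fun m hm =>
    (tdiff ε h m (2 * N) (by omega) (by rw [mem_Icc] at hm; omega) (fun i => by exact_mod_cast (hrange i m hm).2) (2 * L) h2L1 hlog2N).1
  have hPt := ppT_total ε hε h M (2 * N) (by omega) (by omega) (fun i m hm => by exact_mod_cast (hrange i m hm).2) (2 * L) h2L1 hlog2N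
  obtain ⟨P, hP⟩ : ∃ P : ℝ, P = (k + 1) * (2 * L) ^ (k + 1) * (2 * √((2 * N : ℕ) : ℝ) * Real.log ((2 * N : ℕ) : ℝ)) := ⟨_, rfl⟩
  rw [← hP] at hPt
  have hlog2N0 : 0 ≤ Real.log ((2 * N : ℕ) : ℝ) := Real.log_natCast_nonneg _
  have hP0 : 0 ≤ P := by rw [hP]; positivity
  have hPb : P ≤ (k + 1) * (2 * L) ^ (k + 1) * (8 * √(N : ℝ) * L) := by
    rw [hP]
    apply mul_le_mul_of_nonneg_left _ (by positivity)
    have h1 : √((2 * N : ℕ) : ℝ) ≤ 2 * √(N : ℝ) := by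
      rw [Real.sqrt_le_left (by positivity), mul_pow, Real.sq_sqrt hN0.le]
      push_cast
      linarith only [hN0]
    calc 2 * √((2 * N : ℕ) : ℝ) * Real.log ((2 * N : ℕ) : ℝ) ≤ 2 * (2 * √(N : ℝ)) * (2 * L) := by gcongr
      _ = _ := by ring
  -- G
  have hGp : (1 : ℝ) ≤ G := by
    refine le_trans ?_ hG
    exact one_le_pow₀ hL1
  have hG1 : 1 ≤ G := by exact_mod_cast hGp
  have hbd : ∀ x ∈ Icc (1 : ℤ) (2 * N : ℕ), Lm x ≤ 2 * L ∧ Md z x ≤ 2 * L := fun x hx => ⟨(hfm x hx).1, (hfm x hx).2.1⟩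
  have hmain := det_mainK ε hε h z N G Q M S δ ρ1 ρ2 P (2 * L) hNn hG1 hMN hδ0 hρ10 hρ20 h2L1 hrange hbd hnn hPt hfl hlocq y hy
  rw [← he] at hmain
  -- Q
  have hQn : ∀ n : ℕ, n ≤ c2 + k + A + 2 * k + 100 → (Q : ℝ) ≤ N / L ^ n := by
    intro n hn
    rw [le_div_iff₀ (by positivity)]
    calc (Q : ℝ) * L ^ n ≤ (N * Real.exp (-(((c2 + k + A + 2 * k + 100 : ℕ) : ℝ) * ℓ ^ 2))) * Real.exp (n * ℓ ^ 2) :=
          mul_le_mul hQ (hLe2 n) (by positivity) (by positivity)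
      _ = N * Real.exp (-(((c2 + k + A + 2 * k + 100 : ℕ) : ℝ) * ℓ ^ 2) + n * ℓ ^ 2) := by
          rw [mul_assoc, ← Real.exp_add]
      _ ≤ N * 1 := by
          apply mul_le_mul_of_nonneg_left _ hN0.le
          rw [Real.exp_le_one_iff]
          have h1 : (n : ℝ) ≤ ((c2 + k + A + 2 * k + 100 : ℕ) : ℝ) := by exact_mod_cast hn
          have h2 := mul_le_mul_of_nonneg_right h1 (sq_nonneg ℓ)
          linarith only [h2]
      _ = N := mul_one _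
  have hQA := hQn (A + 2 * k + 7) (by omega)
  have hQN : (Q : ℝ) ≤ N := by
    have := hQn 0 (by omega)
    rwa [pow_zero, div_one] at this
  have hlogQ : 1 + Real.log Q ≤ 2 * L := by
    have h1 : Real.log Q ≤ L := by
      rcases Nat.eq_zero_or_pos Q with h0 | h0
      · rw [h0, Nat.cast_zero, Real.log_zero]; exact hL0.le
      · exact Real.log_le_log (by exact_mod_cast h0) hQN
    linarith only [h1, hL1]
  have hlogQ0 : 0 ≤ 1 + Real.log Q := by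
    have := Real.log_natCast_nonneg Q
    linarith only [this]
  have hWb : (N : ℝ) / G + 1 ≤ 2 * N / L ^ (A + k + 6) := by
    have h2 : (N : ℝ) / G ≤ N / L ^ (A + k + 6) := div_le_div_of_nonneg_left hN0.le (by positivity) hG
    have h3 : 1 ≤ N / L ^ (A + k + 6) := by
      rw [le_div_iff₀ (by positivity), one_mul]
      exact hN6 N (by omega)
    have h5 : 2 * N / L ^ (A + k + 6) = N / L ^ (A + k + 6) + N / L ^ (A + k + 6) := by ring
    linarith only [h2, h3, h5]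
  have hσ : ρ1 + δ ≤ 2 / L ^ U := by
    have h3 : 2 / L ^ U = 1 / L ^ U + 1 / L ^ U := by ring
    linarith only [h3, hδb, hρ1b]
  have u2 := w2_num A e U (by omega) N L (ρ1 + δ) (1 + Real.log Q) hN0.le hL1 (add_nonneg hρ10 hδ0) hσ hlogQ0 hlogQ
  have u3 : 8 * (Q : ℝ) ^ 2 * ρ2 ^ 2 ≤ 8 * ((N : ℝ) ^ 2 / L ^ (A + 3)) := by
    have h1 : (Q : ℝ) * ρ2 ≤ N * Real.exp (-(((A + 3 : ℕ) : ℝ) * ℓ ^ 2)) := by
      calc (Q : ℝ) * ρ2 ≤ (N * Real.exp (-(((c2 + k + A + 2 * k + 100 : ℕ) : ℝ) * ℓ ^ 2))) * Real.exp ((c2 + k + 1) * ℓ ^ 2) :=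
            mul_le_mul hQ hρ2b hρ20 (by positivity)
        _ = N * Real.exp (-(((A : ℝ) + 2 * k + 99) * ℓ ^ 2)) := by
            rw [mul_assoc, ← Real.exp_add]
            congr 2
            push_cast
            ring
        _ ≤ _ := by
            apply mul_le_mul_of_nonneg_left _ hN0.le
            apply Real.exp_le_exp.2
            push_cast
            have h2 : ((A : ℝ) + 3) * ℓ ^ 2 ≤ ((A : ℝ) + 2 * k + 99) * ℓ ^ 2 :=
              mul_le_mul_of_nonneg_right (by linarith only [hk0]) (sq_nonneg _)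
            linarith only [h2]
    have h2 : Real.exp (-(((A + 3 : ℕ) : ℝ) * ℓ ^ 2)) ≤ 1 / L ^ (A + 3) := by
      rw [Real.exp_neg, ← one_div]
      exact one_div_le_one_div_of_le (by positivity) (hLe2 _)
    have h3 : (Q : ℝ) * ρ2 ≤ N * (1 / L ^ (A + 3)) := h1.trans (mul_le_mul_of_nonneg_left h2 hN0.le)
    calc 8 * (Q : ℝ) ^ 2 * ρ2 ^ 2 = 8 * (Q * ρ2) ^ 2 := by ring
      _ ≤ 8 * (N * (1 / L ^ (A + 3))) ^ 2 := by
          apply mul_le_mul_of_nonneg_left _ (by norm_num)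
          exact pow_le_pow_left₀ (by positivity) h3 2
      _ = 8 * ((N : ℝ) ^ 2 / L ^ (A + 3) * (1 / L ^ (A + 3))) := by ring
      _ ≤ 8 * ((N : ℝ) ^ 2 / L ^ (A + 3) * 1) := by
          apply mul_le_mul_of_nonneg_left _ (by norm_num)
          apply mul_le_mul_of_nonneg_left _ (by positivity)
          rw [div_le_one (by positivity)]
          exact one_le_pow₀ hL1
      _ = _ := by rw [mul_one]
  have u4 := w4_num A k N L Q P hN0 hL1 (Nat.cast_nonneg _) hQA hP0 hPb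
  have u5 := w5_num A k N L Q ((N : ℝ) / G + 1) (1 + Real.log Q) hN0 hL1 (Nat.cast_nonneg _) hQA (by positivity) hWb hlogQ0 hlogQ
  have hfin : CC * ((N : ℝ) ^ 2 / L ^ (A + 3)) ≤ (N : ℝ) ^ 2 / L ^ (A + 2) := by
    calc CC * ((N : ℝ) ^ 2 / L ^ (A + 3)) ≤ L * ((N : ℝ) ^ 2 / L ^ (A + 3)) :=
          mul_le_mul_of_nonneg_right hLC (by positivity)
      _ = _ := by rw [pow_succ L (A + 2)]; field_simp
  have hCe : CC * ((N : ℝ) ^ 2 / L ^ (A + 3)) = 2 ^ (e + 5) * ((N : ℝ) ^ 2 / L ^ (A + 3)) + 8 * ((N : ℝ) ^ 2 / L ^ (A + 3)) +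
      256 * (k + 1 : ℝ) ^ 2 * 2 ^ (2 * k + 2) * ((N : ℝ) ^ 2 / L ^ (A + 3)) + 72 * 2 ^ (2 * k + 2) * ((N : ℝ) ^ 2 / L ^ (A + 3)) := by
    rw [hCC]; ring
  refine hmain.trans ?_
  have hS2 : S2K z N Q G ε h = ∑ j ∈ range (G + 1), ∑ q ∈ Icc 1 Q, ∑ r ∈ range q, Ek z (2 * N) ε q r (j * N / G) h ^ 2 := rfl
  rw [hS2]
  linarith only [u2, u3, u4, u5, hfin, hCe]

end Pool.Agent.H735K
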