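import Pool.Agent.Helper735_BDH.Flc

/-!
The sieve in residue classes for a general polynomial.
-/

set_option autoImplicit false

namespace Pool.Agent.H735K

open Finset
open Pool.Agent.TH892.SW
open Pool.Agent.W41 (JJ JJ_lt JJ_le JJ_small)
open Pool.Agent.H373R2.T7 (pz Vz lamz mem_pz Vz_pos Vz_le_one)
open Pool.Agent.Helper735_BDH (gcd_iff)

/-- the function respects congruences -/
def Per (F : ℤ → ℤ) : Prop := ∀ (p : ℕ) (x y : ℤ), x ≡ y [ZMOD p] → F x ≡ F y [ZMOD p]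

/-- the number of zeros modulo `p` -/
def rho (F : ℤ → ℤ) (p : ℕ) : ℕ := ((range p).filter (fun a : ℕ => (p : ℤ) ∣ F a)).card

lemma Per_dvd {F : ℤ → ℤ} (hF : Per F) (p : ℕ) (x y : ℤ) (h : x ≡ y [ZMOD p]) : ((p : ℤ) ∣ F x) ↔ ((p : ℤ) ∣ F y) := by
  rw [Int.dvd_iff_emod_eq_zero, Int.dvd_iff_emod_eq_zero, hF p x y h]

lemma root_card_F {F : ℤ → ℤ} (hF : Per F) (p : ℕ) (hp : p.Prime) (q : ℕ) (hq : ¬ p ∣ q) (A : ℤ) :
    ((range p).filter (fun a : ℕ => (p : ℤ) ∣ F (A + q * a))).card = rho F p := by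
  haveI : Fact p.Prime := ⟨hp⟩
  have hq0 : (q : ZMod p) ≠ 0 := by
    rw [Ne, ZMod.natCast_eq_zero_iff]; exact hq
  unfold rho
  have hval : ∀ a : ℕ, A + q * (a : ℤ) ≡ ((((A : ZMod p) + (q : ZMod p) * (a : ZMod p)).val : ℕ) : ℤ) [ZMOD p] := by
    intro a
    rw [← ZMod.intCast_eq_intCast_iff]
    push_cast
    rw [ZMod.natCast_zmod_val]
  have hval2 : ∀ x : ℕ, A + q * ((((x : ZMod p) - (A : ZMod p)) * (q : ZMod p)⁻¹).val : ℤ) ≡ (x : ℤ) [ZMOD p] := by
    intro x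
    rw [← ZMod.intCast_eq_intCast_iff]
    push_cast
    rw [ZMod.natCast_zmod_val]
    field_simp
    ring
  refine card_nbij' (fun a : ℕ => ((A : ZMod p) + (q : ZMod p) * (a : ZMod p)).val)
    (fun x : ℕ => (((x : ZMod p) - (A : ZMod p)) * (q : ZMod p)⁻¹).val) ?_ ?_ ?_ ?_
  · intro a ha
    rw [mem_coe, mem_filter] at ha
    rw [mem_coe, mem_filter, mem_range]
    exact ⟨ZMod.val_lt _, (Per_dvd hF p _ _ (hval a)).1 ha.2⟩
  · intro x hx
    rw [mem_coe, mem_filter] at hx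
    rw [mem_coe, mem_filter, mem_range]
    exact ⟨ZMod.val_lt _, (Per_dvd hF p _ _ (hval2 x)).2 hx.2⟩
  · intro a ha
    rw [mem_coe, mem_filter, mem_range] at ha
    have : (((((A : ZMod p) + (q : ZMod p) * (a : ZMod p)).val : ℕ) : ZMod p) - (A : ZMod p)) * (q : ZMod p)⁻¹ = (a : ZMod p) := by
      rw [ZMod.natCast_zmod_val]
      field_simp
      ring
    simp only [this]
    exact ZMod.val_cast_of_lt ha.1
  · intro x hx
    rw [mem_coe, mem_filter, mem_range] at hx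
    simp only [ZMod.natCast_zmod_val]
    have : (A : ZMod p) + (q : ZMod p) * (((x : ZMod p) - (A : ZMod p)) * (q : ZMod p)⁻¹) = (x : ZMod p) := by
      field_simp
      ring
    rw [this]
    exact ZMod.val_cast_of_lt hx.1

/-- the number of residues `r` modulo `q` with `gcd(F r, q) = 1` -/
def phF (F : ℤ → ℤ) (q : ℕ) : ℕ := ((range q).filter (fun r : ℕ => Int.gcd (F r) q = 1)).card

lemma F_mod {F : ℤ → ℤ} (hF : Per F) (p n : ℕ) : ((p : ℤ) ∣ F ((n % p : ℕ) : ℤ)) ↔ ((p : ℤ) ∣ F n) := by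
  apply Per_dvd hF
  rw [Int.natCast_mod]
  exact Int.mod_modEq _ _

open Classical in
/-- the formula for `phF` -/
theorem phF_eq {F : ℤ → ℤ} (hF : Per F) (q : ℕ) (hq : 1 ≤ q) :
    (phF F q : ℝ) = q * ∏ p ∈ q.primeFactors, (1 - (rho F p : ℝ) / p) := by
  set P : ℕ → Prop := fun n => ∀ p ∈ q.primeFactors, ¬ (p : ℤ) ∣ F n with hP
  have hper : Function.Periodic P q := by
    intro n
    simp only [hP]
    apply propext
    apply forall₂_congr
    intro p hp
    have hpq : (p : ℤ) ∣ (q : ℤ) := by exact_mod_cast Nat.dvd_of_mem_primeFactors hp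
    have h1 : ((n + q : ℕ) : ℤ) ≡ (n : ℤ) [ZMOD p] := by
      push_cast
      have h2 : (q : ℤ) ≡ 0 [ZMOD p] := (Int.modEq_zero_iff_dvd).2 hpq
      calc (n : ℤ) + q ≡ n + 0 [ZMOD p] := Int.ModEq.add_left _ h2
        _ = n := by ring
    rw [Per_dvd hF p _ _ h1]
  have hcount : q.count P = phF F q := by
    rw [Nat.count_eq_card_filter_range]
    unfold phF
    apply congrArg
    apply filter_congr
    intro r _
    rw [gcd_iff q hq]
  have hm : ∀ m : ℕ, ((Icc 1 (q * m)).filter P).card = m * phF F q := by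
    intro m
    induction m with
    | zero => simp
    | succ m ih =>
      have h1 : Icc 1 (q * (m + 1)) = Icc 1 (q * m) ∪ Ico (q * m + 1) (q * m + 1 + q) := by
        ext n
        rw [mem_union, mem_Icc, mem_Icc, mem_Ico, mul_add, mul_one]
        constructor
        · intro h; by_cases h2 : n ≤ q * m
          · left; omega
          · right; omega
        · rintro (h | h) <;> omega
      have h2 : Disjoint (Icc 1 (q * m)) (Ico (q * m + 1) (q * m + 1 + q)) := by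
        rw [disjoint_left]
        intro n h3 h4
        rw [mem_Icc] at h3
        rw [mem_Ico] at h4
        omega
      rw [h1, filter_union, card_union_of_disjoint (disjoint_filter_filter h2), ih,
        Nat.filter_Ico_card_eq_of_periodic _ _ P hper, hcount]
      ring
  set PP := ∏ p ∈ q.primeFactors, (1 - (rho F p : ℝ) / p) with hPP
  set S := q.primeFactors with hS
  have hsys := fun x : ℕ => Pool.Agent.H373R2.T7.count_sys (fun p a => ¬ (p : ℤ) ∣ F (a : ℤ)) x S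
    (fun p hp => Nat.prime_of_mem_primeFactors hp) 1 le_rfl
    (fun p hp => (Nat.prime_of_mem_primeFactors hp).one_lt.ne' ∘ Nat.dvd_one.1) 0
  set C := ∏ p ∈ S, (((range p).filter (fun a : ℕ => ¬ (p : ℤ) ∣ F (a : ℤ))).card : ℝ) with hC
  have hprod : ∏ p ∈ S, ((((range p).filter (fun a : ℕ => ¬ (p : ℤ) ∣ F (a : ℤ))).card : ℝ) / p) = PP := by
    apply prod_congr rfl
    intro p hp
    have hpp := Nat.prime_of_mem_primeFactors hp
    have hp0 : (p : ℝ) ≠ 0 := by exact_mod_cast hpp.ne_zero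
    have h4 := card_filter_add_card_filter_not (s := range p) (fun a : ℕ => (p : ℤ) ∣ F (a : ℤ))
    rw [card_range] at h4
    have h6 : ((((range p).filter (fun a : ℕ => (p : ℤ) ∣ F (a : ℤ))).card : ℕ) : ℝ) +
      (((range p).filter (fun a : ℕ => ¬ (p : ℤ) ∣ F (a : ℤ))).card : ℝ) = p := by exact_mod_cast h4
    have h7 : (((range p).filter (fun a : ℕ => ¬ (p : ℤ) ∣ F (a : ℤ))).card : ℝ) = p - rho F p := by
      unfold rho
      linarith
    rw [h7]
    field_simp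
  have hbd : ∀ m : ℕ, |(m : ℝ) * ((phF F q : ℝ) - q * PP)| ≤ C := by
    intro m
    have h1 := hsys (q * m)
    have h2 : ((Icc 1 (q * m)).filter (fun n => n ≡ 0 [MOD 1] ∧ ∀ p ∈ S, ¬ (p : ℤ) ∣ F ((n % p : ℕ) : ℤ))) =
        (Icc 1 (q * m)).filter P := by
      apply filter_congr
      intro n _
      constructor
      · rintro ⟨_, h3⟩ p hp
        have h4 := h3 p hp
        rwa [F_mod hF p n] at h4
      · intro h3
        refine ⟨Nat.modEq_one, fun p hp => ?_⟩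
        have h4 := h3 p hp
        rwa [F_mod hF p n]
    have h3 : |((((Icc 1 (q * m)).filter P).card : ℕ) : ℝ) - ((q * m : ℕ) : ℝ) / 1 * PP| ≤ C := by
      rw [← h2, ← hprod]
      have h4 := h1
      rw [Nat.cast_one] at h4
      convert h4 using 6
    rw [hm m] at h3
    refine le_trans (le_of_eq ?_) h3
    congr 1
    push_cast
    ring
  by_contra hne
  have hδ : 0 < |(phF F q : ℝ) - q * PP| := abs_pos.2 (sub_ne_zero.2 hne)
  obtain ⟨m, hm2⟩ := exists_nat_gt (C / |(phF F q : ℝ) - q * PP|)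
  rw [div_lt_iff₀ hδ] at hm2
  have h5 := hbd m
  rw [abs_mul, Nat.abs_cast] at h5
  linarith

/-- the density in the classes modulo `q` -/
noncomputable def GF (F : ℤ → ℤ) (z q : ℕ) : ℝ := ∏ p ∈ (pz z).filter (fun p => ¬ p ∣ q), (1 - (rho F p : ℝ) / p)

lemma rho_le (F : ℤ → ℤ) (p : ℕ) : rho F p ≤ p := by
  unfold rho
  exact (card_filter_le _ _).trans (card_range p).le

lemma facF_nonneg (F : ℤ → ℤ) (p : ℕ) : 0 ≤ 1 - (rho F p : ℝ) / p := by
  have h1 : (rho F p : ℝ) ≤ p := by exact_mod_cast rho_le F p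
  have h3 : (rho F p : ℝ) / p ≤ 1 := div_le_one_of_le₀ h1 (Nat.cast_nonneg _)
  linarith

lemma facF_le_one (F : ℤ → ℤ) (p : ℕ) : 1 - (rho F p : ℝ) / p ≤ 1 := by
  have : 0 ≤ (rho F p : ℝ) / p := by positivity
  linarith

lemma GF_nonneg (F : ℤ → ℤ) (z q : ℕ) : 0 ≤ GF F z q := prod_nonneg fun p _ => facF_nonneg F p

lemma GF_le_one (F : ℤ → ℤ) (z q : ℕ) : GF F z q ≤ 1 := prod_le_one (fun p _ => facF_nonneg F p) (fun p _ => facF_le_one F p)

open Classical in
/-- the sieve in residue classes -/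
theorem flcF (κ : ℕ) : ∃ C1 z0 : ℕ, 1 ≤ C1 ∧ 2 ≤ z0 ∧ ∀ b : ℕ, C1 ≤ b → ∀ z : ℕ, z0 ≤ z →
    ∀ F : ℤ → ℤ, Per F → (∀ p : ℕ, p.Prime → rho F p ≤ κ) →
    ∀ (q r y : ℕ), 1 ≤ q → r < q → Int.gcd (F r) q = 1 →
    |((((Icc 1 y).filter (fun n => n ≡ r [MOD q])).filter (fun n : ℕ => ∀ p ∈ pz z, ¬ (p : ℤ) ∣ F n)).card : ℝ) -
      (y : ℝ) / q * GF F z q| ≤ (1 / 2 : ℝ) ^ b * ((y : ℝ) / q) + (z : ℝ) ^ (C1 * b) := by
  obtain ⟨C0, K0, hC0, hK0, hfl⟩ := fl_set κ
  refine ⟨4 * C0 + 4, K0 + 3, by omega, by omega, fun b hb z hz F hF hκ q r y hq hr hg => ?_⟩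
  obtain ⟨r', hr'⟩ : ∃ r' : ℕ, r' = if r = 0 then q else r := ⟨_, rfl⟩
  have hr1 : 1 ≤ r' := by rw [hr']; split_ifs <;> omega
  have hrq : r' ≤ q := by rw [hr']; split_ifs <;> omega
  have hrr : r' ≡ r [MOD q] := by
    rw [hr']
    split_ifs with h
    · rw [h]; exact (Nat.modEq_zero_iff_dvd).2 dvd_rfl
    · rfl
  set A : ℤ := (r' : ℤ) - q with hA
  set T : ℕ := (y + q - r') / q with hT
  set P := (pz z).filter (fun p => ¬ p ∣ q) with hP
  have hPp : ∀ p ∈ P, p.Prime ∧ p ≤ z ∧ ¬ p ∣ q := by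
    intro p hp
    rw [hP, mem_filter, mem_pz] at hp
    exact ⟨hp.1.2, hp.1.1, hp.2⟩
  have h1 := hfl b (by omega) z (by omega) T P (fun p a => (p : ℤ) ∣ F (A + q * a)) (by
    intro p hp
    refine ⟨(hPp p hp).1, (hPp p hp).2.1, ?_⟩
    have h2 := root_card_F hF p (hPp p hp).1 q (hPp p hp).2.2 A
    have h3' : ((range p).filter (fun a : ℕ => (p : ℤ) ∣ F (A + q * a))).card ≤ κ := by
      rw [h2]; exact hκ p (hPp p hp).1
    convert h3')
  have hVe : ∏ p ∈ P, (1 - ((((range p).filter (fun a : ℕ => (p : ℤ) ∣ F (A + q * a))).card : ℕ) : ℝ) / p) =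
      GF F z q := by
    unfold GF
    apply prod_congr rfl
    intro p hp
    rw [root_card_F hF p (hPp p hp).1 q (hPp p hp).2.2 A]
  have hmod : ∀ n p : ℕ, ((p : ℤ) ∣ F (A + q * ((n % p : ℕ) : ℤ))) ↔ ((p : ℤ) ∣ F (A + q * (n : ℤ))) := by
    intro n p
    apply Per_dvd hF
    apply Int.ModEq.add_left
    apply Int.ModEq.mul_left
    rw [Int.natCast_mod]
    exact Int.mod_modEq _ _
  set S := ((Icc 1 T).filter (fun t : ℕ => ∀ p ∈ P, ¬ (p : ℤ) ∣ F (A + q * t))) with hS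
  have hset : S = ((Icc 1 T).filter (fun n : ℕ => ∀ p ∈ P, ¬ (p : ℤ) ∣ F (A + q * ((n % p : ℕ) : ℤ)))) := by
    apply filter_congr
    intro n _
    constructor
    · intro h p hp hd
      exact h p hp ((hmod n p).1 hd)
    · intro h p hp hd
      exact h p hp ((hmod n p).2 hd)
  set G := GF F z q with hG
  have h2 : |((S.card : ℕ) : ℝ) - T * G| ≤
      (1 / 2 : ℝ) ^ b * (T * G) + ((JJ z : ℝ) + 2) * ((z : ℝ) ^ (2 * (C0 * b)) * (K0 * (z : ℝ) ^ (2 * (C0 * b)))) := by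
    rw [hset, ← hVe]
    convert h1 using 6 <;> congr!
  have hz1 : (1 : ℝ) ≤ z := by exact_mod_cast (by omega : 1 ≤ z)
  have hz2 : (2 : ℝ) ≤ z := by exact_mod_cast (by omega : 2 ≤ z)
  have hJ : ((JJ z : ℝ) + 2) ≤ z * z := by
    have h3 : ((JJ z : ℝ) + 2) ≤ 2 * z := by exact_mod_cast JJ_small z (by omega)
    nlinarith
  have hK0 : (K0 : ℝ) ≤ z := by exact_mod_cast (by omega : K0 ≤ z)
  have h3 : ((JJ z : ℝ) + 2) * ((z : ℝ) ^ (2 * (C0 * b)) * (K0 * (z : ℝ) ^ (2 * (C0 * b)))) ≤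
      (z : ℝ) ^ (4 * (C0 * b) + 3) := by
    calc ((JJ z : ℝ) + 2) * ((z : ℝ) ^ (2 * (C0 * b)) * (K0 * (z : ℝ) ^ (2 * (C0 * b))))
        ≤ (z * z) * ((z : ℝ) ^ (2 * (C0 * b)) * (z * (z : ℝ) ^ (2 * (C0 * b)))) := by gcongr
      _ = (z : ℝ) ^ (4 * (C0 * b) + 3) := by
          rw [show 4 * (C0 * b) + 3 = 2 * (C0 * b) + 2 * (C0 * b) + 1 + 1 + 1 by ring]
          simp only [pow_succ, pow_add]
          ring
  -- the bijection
  have hcard : ((Icc 1 y).filter (fun n => n ≡ r [MOD q])).filter (fun n : ℕ => ∀ p ∈ pz z, ¬ (p : ℤ) ∣ F n)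
      = S.image (fun t => r' + q * (t - 1)) := by
    ext n
    rw [mem_filter, mem_filter, mem_Icc, mem_image]
    constructor
    · rintro ⟨⟨⟨hn1, hny⟩, hnr⟩, hnp⟩
      have hnr' : n ≡ r' [MOD q] := hnr.trans hrr.symm
      have hle : r' ≤ n := by
        by_contra hc
        have h4 : n < r' := by omega
        have h5 := (Nat.modEq_iff_dvd' h4.le).1 hnr'
        have h6 := Nat.le_of_dvd (by omega) h5
        omega
      obtain ⟨j, hj⟩ := (Nat.modEq_iff_dvd' hle).1 hnr'.symm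
      have hnj : n = r' + q * j := by omega
      refine ⟨j + 1, ?_, by rw [Nat.add_sub_cancel]; exact hnj.symm⟩
      rw [hS, mem_filter, mem_Icc]
      refine ⟨⟨by omega, ?_⟩, ?_⟩
      · rw [hT, Nat.le_div_iff_mul_le (by omega)]
        have : (j + 1) * q = q * j + q := by ring
        omega
      · intro p hp hd
        apply hnp p (mem_filter.1 hp).1
        have h4 : A + q * ((j + 1 : ℕ) : ℤ) = (n : ℤ) := by
          rw [hA, hnj]; push_cast; ring
        rwa [h4] at hd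
    · rintro ⟨t, ht, rfl⟩
      rw [hS, mem_filter, mem_Icc] at ht
      obtain ⟨⟨ht1, htT⟩, htp⟩ := ht
      rw [hT, Nat.le_div_iff_mul_le (by omega)] at htT
      obtain ⟨j, rfl⟩ : ∃ j, t = j + 1 := ⟨t - 1, by omega⟩
      rw [Nat.add_sub_cancel]
      have h7 : (j + 1) * q = q * j + q := by ring
      refine ⟨⟨⟨by omega, by omega⟩, ?_⟩, ?_⟩
      · have : r' + q * j ≡ r' [MOD q] := by
          rw [Nat.ModEq, Nat.add_mul_mod_self_left]
        exact this.trans hrr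
      · intro p hp hd
        by_cases hpq : p ∣ q
        · have h8 : (((r' + q * j : ℕ) : ℤ)) ≡ (r : ℤ) [ZMOD q] := by
            have : r' + q * j ≡ r [MOD q] := by
              have h9 : r' + q * j ≡ r' [MOD q] := by
                rw [Nat.ModEq, Nat.add_mul_mod_self_left]
              exact h9.trans hrr
            exact (Int.natCast_modEq_iff).2 this
          have h10 : (p : ℤ) ∣ F (r : ℤ) := (Per_dvd hF p _ _ (h8.of_dvd (by exact_mod_cast hpq))).1 hd
          exact (gcd_iff q hq _).1 hg p (Nat.mem_primeFactors.2 ⟨(mem_pz.1 hp).2, hpq, by omega⟩) h10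
        · apply htp p (by rw [hP, mem_filter]; exact ⟨hp, hpq⟩)
          have h4 : A + q * ((j + 1 : ℕ) : ℤ) = ((r' + q * j : ℕ) : ℤ) := by
            rw [hA]; push_cast; ring
          rwa [h4]
  have hsum : (((Icc 1 y).filter (fun n => n ≡ r [MOD q])).filter (fun n : ℕ => ∀ p ∈ pz z, ¬ (p : ℤ) ∣ F n)).card = S.card := by
    rw [hcard, card_image_of_injOn]
    intro t ht t' ht' he
    rw [mem_coe, hS, mem_filter, mem_Icc] at ht ht'
    simp only at he
    have h4 : q * (t - 1) = q * (t' - 1) := by omega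
    have h5 := Nat.eq_of_mul_eq_mul_left (by omega) h4
    omega
  rw [hsum]
  have hG0 : 0 ≤ G := GF_nonneg F z q
  have hG1 : G ≤ 1 := GF_le_one F z q
  have hqr : (0 : ℝ) < q := by exact_mod_cast hq
  have hTy : |(T : ℝ) - y / q| ≤ 1 := by
    have a1 : T * q ≤ y + q - r' := Nat.div_mul_le_self _ _
    have a2 : y + q - r' < (T + 1) * q := by
      rw [hT]
      have := Nat.lt_div_mul_add (a := y + q - r') (b := q) (by omega)
      have h7 : ((y + q - r') / q + 1) * q = (y + q - r') / q * q + q := by ring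
      omega
    have a1' : (T : ℝ) * q ≤ y + q - r' := by
      have : ((T * q : ℕ) : ℝ) ≤ ((y + q - r' : ℕ) : ℝ) := by exact_mod_cast a1
      rw [Nat.cast_sub (by omega)] at this
      push_cast at this
      exact this
    have a2' : (y : ℝ) + q - r' < (T + 1) * q := by
      have : ((y + q - r' : ℕ) : ℝ) < (((T + 1) * q : ℕ) : ℝ) := by exact_mod_cast a2
      rw [Nat.cast_sub (by omega)] at this
      push_cast at this
      exact this
    have a3 : (1 : ℝ) ≤ r' := by exact_mod_cast hr1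
    have a4 : (r' : ℝ) ≤ q := by exact_mod_cast hrq
    rw [abs_le]
    constructor
    · have : (y : ℝ) / q ≤ T + 1 := by
        rw [div_le_iff₀ hqr]; linarith
      linarith
    · have : (T : ℝ) - 1 ≤ y / q := by
        rw [le_div_iff₀ hqr]
        nlinarith
      linarith
  have hyq : 0 ≤ (y : ℝ) / q := by positivity
  have hb0 : (0 : ℝ) < (1 / 2) ^ b := by positivity
  have hb1 : (1 / 2 : ℝ) ^ b ≤ 1 := pow_le_one₀ (by norm_num) (by norm_num)
  have hTle := (abs_le.1 hTy).2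
  have hm : |((S.card : ℕ) : ℝ) - (y : ℝ) / q * G| ≤ (1 / 2 : ℝ) ^ b * ((y : ℝ) / q) + (z : ℝ) ^ (4 * (C0 * b) + 3) + 2 := by
    have e1 : ((S.card : ℕ) : ℝ) - (y : ℝ) / q * G = (((S.card : ℕ) : ℝ) - T * G) + ((T : ℝ) - y / q) * G := by ring
    rw [e1]
    refine (abs_add_le _ _).trans ?_
    have e2 : |((T : ℝ) - y / q) * G| ≤ 1 := by
      rw [abs_mul, abs_of_nonneg hG0]
      calc _ ≤ 1 * 1 := mul_le_mul hTy hG1 hG0 (by norm_num)
        _ = 1 := one_mul 1
    have e3 : (1 / 2 : ℝ) ^ b * (T * G) ≤ (1 / 2 : ℝ) ^ b * ((y : ℝ) / q) + 1 := by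
      have e4 : (T : ℝ) * G ≤ y / q + 1 := by
        calc (T : ℝ) * G ≤ T * 1 := mul_le_mul_of_nonneg_left hG1 (Nat.cast_nonneg _)
          _ ≤ y / q + 1 := by linarith
      calc (1 / 2 : ℝ) ^ b * (T * G) ≤ (1 / 2 : ℝ) ^ b * (y / q + 1) := mul_le_mul_of_nonneg_left e4 hb0.le
        _ ≤ _ := by rw [mul_add]; linarith
    linarith [h2, h3]
  have hfin : (z : ℝ) ^ (4 * (C0 * b) + 3) + 2 ≤ (z : ℝ) ^ ((4 * C0 + 4) * b) := by
    have e1 : (2 : ℝ) ≤ (z : ℝ) ^ (4 * (C0 * b) + 3) := by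
      calc (2 : ℝ) ≤ z := hz2
        _ = (z : ℝ) ^ 1 := (pow_one _).symm
        _ ≤ _ := pow_le_pow_right₀ hz1 (by omega)
    calc (z : ℝ) ^ (4 * (C0 * b) + 3) + 2 ≤ (z : ℝ) ^ (4 * (C0 * b) + 3) * z := by nlinarith
      _ = (z : ℝ) ^ (4 * (C0 * b) + 4) := (pow_succ _ _).symm
      _ ≤ (z : ℝ) ^ ((4 * C0 + 4) * b) := by
          apply pow_le_pow_right₀ hz1
          have : 1 ≤ b := by omega
          nlinarith
  linarith

end Pool.Agent.H735K
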