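import Pool.Agent.H735K.One
import Pool.Agent.Helper735_BDH.Four

/-!
The second moment for the prime tuples.
-/

set_option autoImplicit false

namespace Pool.Agent.H735K

open Finset
open Pool.Agent.H373R2.T7 (pz Vz lamz mem_pz Vz_pos Vz_inv_small)
open Pool.Agent.W110.HV (ES)
open Pool.Agent.Helper735_BDH (fm sup_fm vM_le)

/-- the von Mangoldt function on the integers -/
noncomputable def Lm (x : ℤ) : ℝ := if 1 ≤ x then ArithmeticFunction.vonMangoldt x.toNat else 0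

/-- the sieve model on the integers -/
noncomputable def Md (z : ℕ) (x : ℤ) : ℝ := if 1 ≤ x then lamz z x.toNat else 0

lemma fm_eq (z : ℕ) (x : ℤ) : fm z x = Lm x - Md z x := by
  unfold fm Lm Md
  split_ifs
  · rfl
  · ring

lemma Lm_nonneg (x : ℤ) : 0 ≤ Lm x := by
  unfold Lm
  split_ifs
  · exact ArithmeticFunction.vonMangoldt_nonneg
  · exact le_rfl

lemma Md_nonneg (z : ℕ) (x : ℤ) : 0 ≤ Md z x := by
  unfold Md
  split_ifs
  · exact Pool.Agent.H373R2.T7.lamz_nonneg z _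
  · exact le_rfl

lemma Lm_le (x : ℤ) (Y : ℕ) (hx : x ∈ Icc (1 : ℤ) Y) : Lm x ≤ Real.log Y := by
  rw [mem_Icc] at hx
  unfold Lm
  rw [if_pos hx.1]
  exact vM_le _ _ (by omega) (by omega)

lemma Md_le (z : ℕ) (hz : 1 ≤ z) (x : ℤ) : Md z x ≤ (Vz z)⁻¹ := by
  unfold Md
  split_ifs
  · exact Pool.Agent.TH892.SW.lamz_le z _ hz
  · exact inv_nonneg.2 (Vz_pos z).le

/-- the hybrid functions of the telescoping -/
noncomputable def hyb {k : ℕ} (z j : ℕ) (i : Fin k) : ℤ → ℝ :=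
  if (i : ℕ) < j then Lm else if (i : ℕ) = j then fm z else Md z

/-- telescoping of products -/
lemma tele_prod {k : ℕ} (u v : Fin k → ℝ) : ∏ i, u i - ∏ i, v i =
    ∑ j ∈ range k, ∏ i : Fin k, (if (i : ℕ) < j then u i else if (i : ℕ) = j then u i - v i else v i) := by
  set R : ℕ → ℝ := fun j => ∏ i : Fin k, (if (i : ℕ) < j then u i else v i) with hR
  have h1 : ∏ i, u i = R k := by
    rw [hR]
    exact prod_congr rfl fun i _ => (if_pos i.2).symm
  have h2 : ∏ i, v i = R 0 := by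
    rw [hR]
    exact prod_congr rfl fun i _ => (if_neg (Nat.not_lt_zero _)).symm
  rw [h1, h2, ← sum_range_sub]
  refine sum_congr rfl fun j hj => ?_
  rw [mem_range] at hj
  set j0 : Fin k := ⟨j, hj⟩ with hj0
  rw [hR]
  simp only
  rw [← mul_prod_erase univ _ (mem_univ j0), ← mul_prod_erase univ (fun i : Fin k => if (i : ℕ) < j then u i else v i) (mem_univ j0),
    ← mul_prod_erase univ (fun i : Fin k => if (i : ℕ) < j then u i else if (i : ℕ) = j then u i - v i else v i) (mem_univ j0)]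
  have e1 : ∏ i ∈ univ.erase j0, (if (i : ℕ) < j + 1 then u i else v i) =
      ∏ i ∈ univ.erase j0, (if (i : ℕ) < j then u i else if (i : ℕ) = j then u i - v i else v i) := by
    refine prod_congr rfl fun i hi => ?_
    have hne : (i : ℕ) ≠ j := by
      intro h
      apply (mem_erase.1 hi).1
      apply Fin.ext
      exact h
    by_cases h : (i : ℕ) < j
    · rw [if_pos (by omega), if_pos h]
    · rw [if_neg (by omega), if_neg h, if_neg hne]
  have e2 : ∏ i ∈ univ.erase j0, (if (i : ℕ) < j then u i else v i) =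
      ∏ i ∈ univ.erase j0, (if (i : ℕ) < j then u i else if (i : ℕ) = j then u i - v i else v i) := by
    refine prod_congr rfl fun i hi => ?_
    have hne : (i : ℕ) ≠ j := by
      intro h
      apply (mem_erase.1 hi).1
      apply Fin.ext
      exact h
    by_cases h : (i : ℕ) < j
    · rw [if_pos (by omega), if_pos h]
    · rw [if_neg (by omega), if_neg h, if_neg hne]
  rw [e1, e2]
  have f1 : (if ((j0 : Fin k) : ℕ) < j + 1 then u j0 else v j0) = u j0 := if_pos (by rw [hj0]; simp)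
  have f2 : (if ((j0 : Fin k) : ℕ) < j then u j0 else v j0) = v j0 := if_neg (by rw [hj0]; simp)
  have f3 : (if ((j0 : Fin k) : ℕ) < j then u j0 else if ((j0 : Fin k) : ℕ) = j then u j0 - v j0 else v j0) = u j0 - v j0 := by
    rw [if_neg (by rw [hj0]; simp), if_pos (by rw [hj0])]
  rw [f1, f2, f3]
  ring

/-- the difference of the product of the von Mangoldt function and of the model, in a residue class -/
noncomputable def Ek {k : ℕ} (z Y : ℕ) (ε : Fin k → ℤ) (q r y : ℕ) (h : Fin k → ℤ) : ℝ :=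
  ∑ m ∈ (Icc 1 y).filter (fun m => m ≡ r [MOD q]), (Lm m * ∏ i, cut Y Lm (ε i * m + h i) -
    Md z m * ∏ i, cut Y (Md z) (ε i * m + h i))

lemma cut_sub (Y : ℕ) (f g : ℤ → ℝ) (x : ℤ) : cut Y f x - cut Y g x = cut Y (fun x => f x - g x) x := by
  unfold cut
  split_ifs
  · rfl
  · ring

lemma Ek_tele {k : ℕ} (z Y : ℕ) (ε : Fin k → ℤ) (q r y : ℕ) (h : Fin k → ℤ) :
    Ek z Y ε q r y h = TS ε Y (fm z) (fun _ => Md z) q r y h + ∑ j ∈ range k, TS ε Y Lm (hyb z j) q r y h := by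
  unfold Ek TS
  rw [sum_comm, ← sum_add_distrib]
  refine sum_congr rfl fun m _ => ?_
  rw [← mul_sum]
  have e1 : ∑ j ∈ range k, ∏ i, cut Y (hyb z j i) (ε i * m + h i) =
      ∏ i, cut Y Lm (ε i * m + h i) - ∏ i, cut Y (Md z) (ε i * m + h i) := by
    rw [tele_prod]
    refine sum_congr rfl fun j _ => prod_congr rfl fun i _ => ?_
    unfold hyb
    split_ifs
    · rfl
    · rw [cut_sub]
      unfold cut
      split_ifs
      · exact fm_eq z _
      · rfl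
    · rfl
  rw [e1, fm_eq]
  ring

lemma ev_sqrt (U : ℕ) : ∃ X0 : ℕ, ∀ X : ℕ, X0 ≤ X → √(X : ℝ) * (2 * Real.log X) ≤ X / Real.log X ^ U := by
  obtain ⟨X1, h1⟩ := ev_pow (2 * U + 4)
  obtain ⟨X2, h2⟩ := ev_log 4
  refine ⟨X1 + X2 + 1, fun X hX => ?_⟩
  have a1 := h1 X (by omega)
  have a2 := h2 X (by omega)
  have hX0 : (0 : ℝ) < X := by exact_mod_cast (by omega : 0 < X)
  set L := Real.log (X : ℝ)
  have hL0 : 0 < L := by linarith
  have h3 : L ^ (U + 2) ≤ √(X : ℝ) := by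
    apply Real.le_sqrt_of_sq_le
    rw [← pow_mul]
    refine le_trans (le_of_eq ?_) a1
    ring
  rw [le_div_iff₀ (by positivity)]
  calc √(X : ℝ) * (2 * L) * L ^ U = √(X : ℝ) * (2 * L ^ (U + 1)) := by ring
    _ ≤ √(X : ℝ) * (L * L ^ (U + 1)) := by gcongr; linarith
    _ = √(X : ℝ) * L ^ (U + 2) := by ring
    _ ≤ √(X : ℝ) * √(X : ℝ) := by gcongr
    _ = X := Real.mul_self_sqrt hX0.le

lemma fm_abs (E : ℕ) : ∃ N0 : ℕ, ∀ N : ℕ, N0 ≤ N → ∀ z : ℕ, 1 ≤ z → (z : ℝ) ≤ Real.log N ^ E →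
    (Vz z)⁻¹ ≤ Real.log N ∧ ∀ x ∈ Icc (1 : ℤ) (2 * N : ℕ), Lm x ≤ 2 * Real.log N ∧ Md z x ≤ 2 * Real.log N ∧ |fm z x| ≤ 2 * Real.log N := by
  obtain ⟨N2, hN2⟩ := Vz_inv_small E
  obtain ⟨N3, hN3⟩ := ev_log 1
  refine ⟨N2 + N3 + 1, fun N hN z hz1 hz2 => ?_⟩
  have hV := hN2 N (by omega) z hz1 hz2
  have hL1 := hN3 N (by omega)
  have hN0 : (0 : ℝ) < N := by exact_mod_cast (by omega : 0 < N)
  refine ⟨hV, fun x hx => ?_⟩
  have h1 := Lm_le x _ hx
  have h2 : Real.log ((2 * N : ℕ) : ℝ) ≤ 2 * Real.log N := by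
    push_cast
    rw [Real.log_mul (by norm_num) hN0.ne']
    have := Real.log_two_lt_d9
    linarith
  have h3 := Md_le z hz1 x
  have h4 := Lm_nonneg x
  have h5 := Md_nonneg z x
  refine ⟨by linarith, by linarith, ?_⟩
  rw [fm_eq, abs_le]
  constructor <;> linarith

theorem supD (U : ℕ) : ∃ B0 : ℕ, ∀ E : ℕ, ∃ N0 : ℕ, ∀ N : ℕ, N0 ≤ N → ∀ z : ℕ, 1 ≤ z → (2 * Real.log N) ^ B0 ≤ z →
    (z : ℝ) ≤ Real.log N ^ E → ∀ y : ℕ, y ≤ 2 * N → ∀ α : ℝ,
    ‖ES 1 (y : ℤ) (fun n => (fm z n : ℂ)) α‖ ≤ N / Real.log N ^ U := by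
  obtain ⟨B, hB⟩ := sup_fm (U + 1)
  refine ⟨B, fun E => ?_⟩
  obtain ⟨N1, hN1⟩ := hB (2 * E)
  obtain ⟨N2, hN2⟩ := fm_abs E
  obtain ⟨N3, hN3⟩ := ev_log (2 ^ (U + 2) + 4)
  obtain ⟨N4, hN4⟩ := ev_sqrt U
  refine ⟨N1 * N1 + N2 + N3 + N4 + 4, fun N hN z hz hz1 hz2 y hy α => ?_⟩
  obtain ⟨hV, hfm⟩ := hN2 N (by omega) z hz hz2
  have hL := hN3 N (by omega)
  have hs := hN4 N (by omega)
  set L := Real.log (N : ℝ) with hLd
  have h2U : (1 : ℝ) ≤ 2 ^ (U + 2) := one_le_pow₀ (by norm_num)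
  have hL0 : 0 < L := by linarith
  have hN0 : (0 : ℝ) < N := by exact_mod_cast (by omega : 0 < N)
  rcases Nat.lt_or_ge (y * y) N with hyN | hyN
  · -- trivial bound
    refine le_trans ?_ hs
    rw [Pool.Agent.TH892.SW.ES_nat]
    refine (norm_sum_le _ _).trans ?_
    have h1 : ∀ n ∈ Icc 1 y, ‖((fm z (n : ℤ) : ℝ) : ℂ) * Pool.Agent.H807R2.Dav.ee ((n : ℝ) * α)‖ ≤ 2 * L := by
      intro n hn
      rw [mem_Icc] at hn
      rw [norm_mul, Complex.norm_real, Real.norm_eq_abs]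
      have h2 : ‖Pool.Agent.H807R2.Dav.ee ((n : ℝ) * α)‖ = 1 := by
        simp [Pool.Agent.H807R2.Dav.ee, Complex.norm_exp]
      rw [h2, mul_one]
      exact (hfm n (mem_Icc.2 ⟨by omega, by omega⟩)).2.2
    refine (sum_le_sum h1).trans ?_
    rw [sum_const, Nat.card_Icc, Nat.add_sub_cancel, nsmul_eq_mul]
    apply mul_le_mul_of_nonneg_right _ (by positivity)
    apply Real.le_sqrt_of_sq_le
    rw [sq]
    exact_mod_cast hyN.le
  · have hyN1 : N1 ≤ y := by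
      by_contra hc
      push Not at hc
      have : y * y ≤ N1 * N1 := Nat.mul_le_mul hc.le hc.le
      omega
    have hy0 : (0 : ℝ) < y := by
      have : 0 < y := by
        by_contra hc
        have : y = 0 := by omega
        rw [this] at hyN
        omega
      exact_mod_cast this
    have hly1 : L / 2 ≤ Real.log y := by
      have h1 : L ≤ Real.log ((y : ℝ) * y) := by
        apply Real.log_le_log hN0
        exact_mod_cast hyN
      rw [Real.log_mul hy0.ne' hy0.ne'] at h1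
      linarith
    have hly2 : Real.log y ≤ 2 * L := by
      have h1 : Real.log y ≤ Real.log (2 * N) := by
        apply Real.log_le_log hy0
        exact_mod_cast hy
      rw [Real.log_mul (by norm_num) hN0.ne'] at h1
      have := Real.log_two_lt_d9
      linarith
    have hly0 : 2 ≤ Real.log y := by linarith
    have h1 := hN1 y hyN1 z ((pow_le_pow_left₀ (by linarith) hly2 B).trans hz1) (by
      refine hz2.trans ?_
      calc L ^ E ≤ (2 * Real.log y) ^ E := pow_le_pow_left₀ hL0.le (by linarith) E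
        _ ≤ (Real.log y * Real.log y) ^ E := by
            apply pow_le_pow_left₀ (by linarith)
            nlinarith
        _ = Real.log y ^ (2 * E) := by rw [← sq, ← pow_mul]) α
    refine h1.trans ?_
    calc (y : ℝ) / Real.log y ^ (U + 1) ≤ (2 * N) / (L / 2) ^ (U + 1) := by
          gcongr
          exact_mod_cast hy
      _ = N * 2 ^ (U + 2) / (L ^ U * L) := by
          rw [div_pow]
          field_simp
          ring
      _ ≤ N * L / (L ^ U * L) := by gcongr; linarith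
      _ = N / L ^ U := by field_simp

lemma swap4 {α : Type*} (P : Finset α) (I : Finset ℕ) (J : ℕ → Finset ℕ) (K : Finset ℕ) (F : α → ℕ → ℕ → ℕ → ℝ) :
    ∑ h ∈ P, ∑ q ∈ I, ∑ r ∈ J q, ∑ i ∈ K, F h q r i = ∑ i ∈ K, ∑ h ∈ P, ∑ q ∈ I, ∑ r ∈ J q, F h q r i := by
  calc ∑ h ∈ P, ∑ q ∈ I, ∑ r ∈ J q, ∑ i ∈ K, F h q r i = ∑ h ∈ P, ∑ q ∈ I, ∑ i ∈ K, ∑ r ∈ J q, F h q r i :=
        sum_congr rfl fun h _ => sum_congr rfl fun q _ => sum_comm
    _ = ∑ h ∈ P, ∑ i ∈ K, ∑ q ∈ I, ∑ r ∈ J q, F h q r i := sum_congr rfl fun h _ => sum_comm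
    _ = _ := sum_comm

/-- the second moment -/
theorem momK (k A1 g : ℕ) : ∃ B0 B : ℕ, ∀ E : ℕ, ∃ N0 : ℕ, ∀ N : ℕ, N0 ≤ N → ∀ z : ℕ, 1 ≤ z →
    (2 * Real.log N) ^ B0 ≤ z → (z : ℝ) ≤ Real.log N ^ E →
    ∀ ε : Fin k → ℤ, (∀ i, ε i = 1 ∨ ε i = -1) → ∀ G Q : ℕ, (G : ℝ) + 1 ≤ 3 * Real.log N ^ g → 1 ≤ G →
    (Q : ℝ) ≤ N / Real.log N ^ B →
    ∑ h ∈ Fintype.piFinset (fun _ : Fin k => Icc (-((3 * N : ℕ) : ℤ)) (3 * N : ℕ)), ∑ j ∈ range (G + 1),
      ∑ q ∈ Icc 1 Q, ∑ r ∈ range q, Ek z (2 * N) ε q r (j * N / G) h ^ 2 ≤ (N : ℝ) ^ (k + 2) / Real.log N ^ A1 := by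
  set U := 2 * 2 * (k + 1) + 2 + g + (A1 + 1) with hU
  set B := 2 * 2 * (k + 1) + g + (A1 + 1) with hB
  obtain ⟨B0, hB0⟩ := supD U
  refine ⟨B0, B, fun E => ?_⟩
  obtain ⟨N1, hN1⟩ := hB0 E
  obtain ⟨N2, hN2⟩ := fm_abs E
  obtain ⟨N3, hN3⟩ := ev_log (864 * 2 ^ k * (k + 1) ^ 2 + 4)
  refine ⟨N1 + N2 + N3 + 4, fun N hN z hz hz1 hz2 ε hε G Q hG hG1 hQ => ?_⟩
  obtain ⟨hV, hfm⟩ := hN2 N (by omega) z hz hz2
  have hsup := hN1 N (by omega) z hz hz1 hz2
  have hLk := hN3 N (by omega)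
  set L := Real.log (N : ℝ) with hL
  have hk0 : (0 : ℝ) ≤ 864 * 2 ^ k * ((k : ℝ) + 1) ^ 2 := by positivity
  have hL4 : 4 ≤ L := by linarith
  have hL0 : 0 < L := by linarith
  have hL1 : 1 ≤ L := by linarith
  have hNr : (1 : ℝ) ≤ N := by exact_mod_cast (by omega : 1 ≤ N)
  have hN0 : (0 : ℝ) < N := by linarith
  set LY := Real.log ((2 * N : ℕ) : ℝ) with hLY
  have hLY1 : L ≤ LY := by
    apply Real.log_le_log hN0
    exact_mod_cast (by omega : N ≤ 2 * N)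
  have hLY2 : LY ≤ 2 * L := by
    rw [hLY]
    push_cast
    rw [Real.log_mul (by norm_num) (by linarith)]
    have := Real.log_two_lt_d9
    linarith
  have h2L : 2 * L ≤ L ^ 2 := by nlinarith
  set Z := (N : ℝ) / L ^ U with hZ
  have hZ0 : 0 ≤ Z := by positivity
  have hZ1 : Z ≤ 2 * N / L ^ U := by
    rw [hZ]
    gcongr
    linarith
  set P := Fintype.piFinset (fun _ : Fin k => Icc (-((3 * N : ℕ) : ℤ)) (3 * N : ℕ)) with hP
  set V0 := 288 * 2 ^ k * (N : ℝ) ^ (k + 2) / L ^ (g + (A1 + 1)) with hV0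
  -- one of the sums
  have key : ∀ j ∈ range (G + 1), ∀ (f : ℤ → ℝ) (gg : Fin k → ℤ → ℝ),
      (∀ x ∈ Icc (1 : ℤ) (2 * N : ℕ), |f x| ≤ 2 * L) → (∀ i, ∀ x ∈ Icc (1 : ℤ) (2 * N : ℕ), |gg i x| ≤ 2 * L) →
      (f = fm z ∨ ∃ i, gg i = fm z) →
      ∑ h ∈ P, ∑ q ∈ Icc 1 Q, ∑ r ∈ range q, TS ε (2 * N) f gg q r (j * N / G) h ^ 2 ≤ V0 := by
    intro j hj f gg hf hg hone
    rw [mem_range] at hj
    have hy : j * N / G ≤ N := by
      apply Nat.div_le_of_le_mul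
      exact Nat.mul_le_mul_right N (by omega)
    have h1 := energy_bound ε hε (j * N / G) (2 * N) (3 * N) Q (by omega) (by omega) f gg (L ^ 2) Z
      (one_le_pow₀ hL1) hZ0
      (fun x hx => (hf x (by rw [mem_Icc] at hx ⊢; constructor <;> omega)).trans h2L)
      (fun i x hx => (hg i x hx).trans h2L)
      (by
        rcases hone with h | ⟨i, h⟩
        · left
          rw [h]
          exact fun α => hsup _ (by omega) α
        · right
          refine ⟨i, ?_⟩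
          rw [h]
          exact fun α => hsup _ le_rfl α)
    have h2 := energy_num k 2 B U N L LY Q Z hNr hL1 hLY1 hLY2 (Nat.cast_nonneg _) hQ hZ0 hZ1
    have hLYe : Real.log (2 * (N : ℝ)) = LY := by rw [hLY]; push_cast; rfl
    refine h1.trans ?_
    push_cast at h2 ⊢
    rw [hLYe]
    refine h2.trans (le_of_eq ?_)
    have e1 : L ^ (2 * 2 * (k + 1)) / L ^ B = 1 / L ^ (g + (A1 + 1)) := by
      rw [hB, show 2 * 2 * (k + 1) + g + (A1 + 1) = 2 * 2 * (k + 1) + (g + (A1 + 1)) by ring, pow_add L (2 * 2 * (k + 1))]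
      field_simp
    have e2 : L ^ (2 * 2 * (k + 1) + 2) / L ^ U = 1 / L ^ (g + (A1 + 1)) := by
      rw [hU, show 2 * 2 * (k + 1) + 2 + g + (A1 + 1) = (2 * 2 * (k + 1) + 2) + (g + (A1 + 1)) by ring,
        pow_add L (2 * 2 * (k + 1) + 2)]
      field_simp
    rw [e1, e2, hV0]
    ring
  -- the bounds for the functions
  have b1 : ∀ x ∈ Icc (1 : ℤ) (2 * N : ℕ), |Lm x| ≤ 2 * L := fun x hx => by
    rw [abs_of_nonneg (Lm_nonneg x)]; exact (hfm x hx).1
  have b2 : ∀ x ∈ Icc (1 : ℤ) (2 * N : ℕ), |Md z x| ≤ 2 * L := fun x hx => by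
    rw [abs_of_nonneg (Md_nonneg z x)]; exact (hfm x hx).2.1
  have b3 : ∀ x ∈ Icc (1 : ℤ) (2 * N : ℕ), |fm z x| ≤ 2 * L := fun x hx => (hfm x hx).2.2
  have sq_le : ∀ (s : Finset ℕ) (u : ℕ → ℝ) (v : ℝ), s.card = k → (v + ∑ j ∈ s, u j) ^ 2 ≤ (k + 1) * (v ^ 2 + ∑ j ∈ s, u j ^ 2) := by
    intro s u v hs
    have h1 : (∑ j ∈ s, u j) ^ 2 ≤ s.card * ∑ j ∈ s, u j ^ 2 := sq_sum_le_card_mul_sum_sq
    rw [hs] at h1
    set W := ∑ j ∈ s, u j with hW
    set W2 := ∑ j ∈ s, u j ^ 2 with hW2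
    have hk : (0 : ℝ) ≤ k := Nat.cast_nonneg k
    rcases Nat.eq_zero_or_pos k with h0 | h0
    · have hs0 : s = ∅ := card_eq_zero.1 (hs.trans h0)
      rw [hW, hW2, hs0, h0]
      simp
    · have hkr : (0 : ℝ) < k := by exact_mod_cast h0
      have h3 : 2 * v * W ≤ k * v ^ 2 + W ^ 2 / k := by
        have : 0 ≤ (k * v - W) ^ 2 / k := by positivity
        have e : (k * v - W) ^ 2 / k = k * v ^ 2 - 2 * v * W + W ^ 2 / k := by field_simp; ring
        linarith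
      have h4 : W ^ 2 / k ≤ W2 := by
        rw [div_le_iff₀ hkr]; linarith
      nlinarith
  have hEk : ∀ j h q r, Ek z (2 * N) ε q r (j * N / G) h ^ 2 ≤ (k + 1) *
      (TS ε (2 * N) (fm z) (fun _ => Md z) q r (j * N / G) h ^ 2 +
        ∑ i ∈ range k, TS ε (2 * N) Lm (hyb z i) q r (j * N / G) h ^ 2) := by
    intro j h q r
    rw [Ek_tele]
    exact sq_le (range k) _ _ (card_range k)
  have hj : ∀ j ∈ range (G + 1), ∑ h ∈ P, ∑ q ∈ Icc 1 Q, ∑ r ∈ range q, Ek z (2 * N) ε q r (j * N / G) h ^ 2 ≤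
      (k + 1) * ((k + 1) * V0) := by
    intro j hj
    calc ∑ h ∈ P, ∑ q ∈ Icc 1 Q, ∑ r ∈ range q, Ek z (2 * N) ε q r (j * N / G) h ^ 2
        ≤ ∑ h ∈ P, ∑ q ∈ Icc 1 Q, ∑ r ∈ range q, (k + 1) *
          (TS ε (2 * N) (fm z) (fun _ => Md z) q r (j * N / G) h ^ 2 +
            ∑ i ∈ range k, TS ε (2 * N) Lm (hyb z i) q r (j * N / G) h ^ 2) :=
          sum_le_sum fun h _ => sum_le_sum fun q _ => sum_le_sum fun r _ => hEk j h q r
      _ = (k + 1) * (∑ h ∈ P, ∑ q ∈ Icc 1 Q, ∑ r ∈ range q, TS ε (2 * N) (fm z) (fun _ => Md z) q r (j * N / G) h ^ 2 +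
          ∑ i ∈ range k, ∑ h ∈ P, ∑ q ∈ Icc 1 Q, ∑ r ∈ range q, TS ε (2 * N) Lm (hyb z i) q r (j * N / G) h ^ 2) := by
          simp only [← mul_sum, sum_add_distrib]
          congr 2
          exact swap4 P (Icc 1 Q) range (range k)
            (fun h q r i => TS ε (2 * N) Lm (hyb z i) q r (j * N / G) h ^ 2)
      _ ≤ (k + 1) * (V0 + ∑ _i ∈ range k, V0) := by
          apply mul_le_mul_of_nonneg_left _ (by positivity)
          apply add_le_add
          · exact key j hj (fm z) (fun _ => Md z) b3 (fun _ => b2) (Or.inl rfl)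
          · refine sum_le_sum fun i hi => ?_
            rw [mem_range] at hi
            refine key j hj Lm (hyb z i) b1 ?_ (Or.inr ⟨⟨i, hi⟩, ?_⟩)
            · intro i' x hx
              unfold hyb
              split_ifs
              · exact b1 x hx
              · exact b3 x hx
              · exact b2 x hx
            · unfold hyb
              rw [if_neg (by simp), if_pos rfl]
      _ = _ := by
          rw [sum_const, card_range, nsmul_eq_mul]
          ring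
  rw [sum_comm]
  refine (sum_le_sum hj).trans ?_
  rw [sum_const, card_range, nsmul_eq_mul]
  push_cast
  have hV00 : 0 ≤ V0 := by positivity
  calc ((G : ℝ) + 1) * ((k + 1) * ((k + 1) * V0)) ≤ (3 * L ^ g) * ((k + 1) * ((k + 1) * V0)) :=
        mul_le_mul_of_nonneg_right hG (by positivity)
    _ = (864 * 2 ^ k * ((k : ℝ) + 1) ^ 2) * (N : ℝ) ^ (k + 2) / L ^ (A1 + 1) := by
        rw [hV0, pow_add L g (A1 + 1)]
        field_simp
        ring
    _ ≤ L * (N : ℝ) ^ (k + 2) / L ^ (A1 + 1) := by gcongr; linarith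
    _ = _ := by
        rw [pow_succ L A1]
        field_simp

end Pool.Agent.H735K
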