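import Pool.Agent.H735K.FlcK
import Pool.Agent.H735K.Mom
import Pool.Agent.H735K.Grid
import Pool.Agent.Helper735_BDH.Det
import Pool.Agent.H373R2.T7.Tuple4

/-!
The model of a prime tuple in residue classes.
-/

set_option autoImplicit false

namespace Pool.Agent.H735K

open Finset
open Pool.Agent.H373R2.T7 (pz Vz lamz mem_pz Vz_pos Vz_le_one nuP nuP_le singZ singZ_nonneg)
open Pool.Agent.Helper735_BDH (two_pow_omega_le one_sub_sum_le dcard_pos)

/-- the polynomial `x (x + a_1) ... (x + a_k)` -/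
def Fa {k : ℕ} (a : Fin k → ℤ) (x : ℤ) : ℤ := x * ∏ i, (x + a i)

lemma Per_Fa {k : ℕ} (a : Fin k → ℤ) : Per (Fa a) := by
  intro p x y h
  unfold Fa
  rw [← ZMod.intCast_eq_intCast_iff] at h ⊢
  push_cast
  rw [h]

lemma Fa_dvd {k : ℕ} (a : Fin k → ℤ) (p : ℕ) (hp : p.Prime) (x : ℤ) :
    (p : ℤ) ∣ Fa a x ↔ (p : ℤ) ∣ x ∨ ∃ i, (p : ℤ) ∣ x + a i := by
  unfold Fa
  have hpp : Prime (p : ℤ) := Nat.prime_iff_prime_int.1 hp
  rw [hpp.dvd_mul, hpp.dvd_finsetProd_iff]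
  simp

lemma rho_Fa {k : ℕ} (a : Fin k → ℤ) (p : ℕ) (hp : p.Prime) : rho (Fa a) p = nuP a p := by
  unfold rho nuP
  apply congrArg
  apply filter_congr
  intro r _
  rw [Fa_dvd a p hp]
  rw [Int.natCast_dvd_natCast]

lemma Md_pos_eq (z : ℕ) (x : ℤ) (hx : 1 ≤ x) : Md z x = if ∀ p ∈ pz z, ¬ (p : ℤ) ∣ x then (Vz z)⁻¹ else 0 := by
  unfold Md lamz
  rw [if_pos hx]
  have h : ∀ p : ℕ, (p ∣ x.toNat ↔ (p : ℤ) ∣ x) := by
    intro p
    rw [← Int.natCast_dvd_natCast, Int.toNat_of_nonneg (by omega)]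
  simp only [h]

lemma shift_dvd (ε : ℤ) (hε : ε = 1 ∨ ε = -1) (p : ℕ) (m h : ℤ) : (p : ℤ) ∣ ε * m + h ↔ (p : ℤ) ∣ m + ε * h := by
  rcases hε with rfl | rfl
  · simp
  · rw [← dvd_neg]
    have : -(-1 * m + h) = m + -1 * h := by ring
    rw [this]

lemma model_eq {k : ℕ} (ε : Fin k → ℤ) (hε : ∀ i, ε i = 1 ∨ ε i = -1) (z Y m : ℕ) (h : Fin k → ℤ) (hm : 1 ≤ m)
    (hi : ∀ i, 1 ≤ ε i * m + h i ∧ ε i * m + h i ≤ Y) :
    Md z m * ∏ i, cut Y (Md z) (ε i * m + h i) =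
      if ∀ p ∈ pz z, ¬ (p : ℤ) ∣ Fa (fun i => ε i * h i) m then ((Vz z)⁻¹) ^ (k + 1) else 0 := by
  have h1 : ∀ i ∈ (univ : Finset (Fin k)), cut Y (Md z) (ε i * m + h i) =
      if ∀ p ∈ pz z, ¬ (p : ℤ) ∣ (m : ℤ) + ε i * h i then (Vz z)⁻¹ else 0 := by
    intro i _
    unfold cut
    rw [if_pos (hi i), Md_pos_eq z _ (hi i).1]
    simp only [shift_dvd (ε i) (hε i)]
  rw [prod_congr rfl h1, Md_pos_eq z m (by exact_mod_cast hm), prod_ite_zero]
  rw [prod_const, card_univ, Fintype.card_fin]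
  have h2 : (∀ p ∈ pz z, ¬ (p : ℤ) ∣ Fa (fun i => ε i * h i) m) ↔
      ((∀ p ∈ pz z, ¬ (p : ℤ) ∣ (m : ℤ)) ∧ ∀ i ∈ (univ : Finset (Fin k)), ∀ p ∈ pz z, ¬ (p : ℤ) ∣ (m : ℤ) + ε i * h i) := by
    constructor
    · intro h3
      refine ⟨fun p hp hd => h3 p hp ((Fa_dvd _ p (mem_pz.1 hp).2 _).2 (Or.inl hd)), fun i _ p hp hd => ?_⟩
      exact h3 p hp ((Fa_dvd _ p (mem_pz.1 hp).2 _).2 (Or.inr ⟨i, hd⟩))
    · rintro ⟨h3, h4⟩ p hp hd
      rcases (Fa_dvd _ p (mem_pz.1 hp).2 _).1 hd with h5 | ⟨i, h5⟩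
      · exact h3 p hp h5
      · exact h4 i (mem_univ _) p hp h5
  by_cases h3 : ∀ p ∈ pz z, ¬ (p : ℤ) ∣ (m : ℤ)
  · by_cases h4 : ∀ i ∈ (univ : Finset (Fin k)), ∀ p ∈ pz z, ¬ (p : ℤ) ∣ (m : ℤ) + ε i * h i
    · rw [if_pos h3, if_pos h4, if_pos (h2.2 ⟨h3, h4⟩), pow_succ]
      ring
    · rw [if_neg h4, if_neg (fun h5 => h4 (h2.1 h5).2), mul_zero]
  · rw [if_neg h3, if_neg (fun h5 => h3 (h2.1 h5).1), zero_mul]

/-- the proportion of the residues coprime to `q` -/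
noncomputable def FqK {k : ℕ} (a : Fin k → ℤ) (q : ℕ) : ℝ := ∏ p ∈ q.primeFactors, (1 - (rho (Fa a) p : ℝ) / p)

lemma phF_FqK {k : ℕ} (a : Fin k → ℤ) (q : ℕ) (hq : 1 ≤ q) : (phF (Fa a) q : ℝ) = q * FqK a q := phF_eq (Per_Fa a) q hq

lemma fac_geK (k p ν : ℕ) (hp : 2 ≤ p) (h1 : ν ≤ k + 1) (h2 : ν < p) : 1 / (2 * (k + 1 : ℝ)) ≤ 1 - (ν : ℝ) / p := by
  have hp0 : (0 : ℝ) < p := by exact_mod_cast (by omega : 0 < p)
  have hk : (0 : ℝ) < k + 1 := by positivity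
  rcases Nat.lt_or_ge (2 * (k + 1)) p with h | h
  · have h3 : (2 * (k + 1 : ℝ)) ≤ p := by exact_mod_cast h.le
    have h4 : (ν : ℝ) ≤ k + 1 := by exact_mod_cast h1
    have h5 : (ν : ℝ) / p ≤ 1 / 2 := by
      rw [div_le_div_iff₀ hp0 (by norm_num)]
      linarith
    have h6 : 1 / (2 * (k + 1 : ℝ)) ≤ 1 / 2 := by
      apply one_div_le_one_div_of_le (by norm_num)
      have : (0 : ℝ) ≤ k := Nat.cast_nonneg k
      linarith
    linarith
  · have h3 : (p : ℝ) ≤ 2 * (k + 1) := by exact_mod_cast h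
    have h4 : (ν : ℝ) + 1 ≤ p := by exact_mod_cast h2
    have h5 : 1 / (2 * (k + 1 : ℝ)) ≤ 1 / p := one_div_le_one_div_of_le hp0 h3
    have h6 : (ν : ℝ) / p + 1 / p ≤ 1 := by
      rw [← add_div, div_le_one hp0]
      exact h4
    linarith

lemma rho_lt {k : ℕ} (a : Fin k → ℤ) (q r : ℕ) (hg : Int.gcd (Fa a r) q = 1) (p : ℕ) (hp : p ∈ q.primeFactors) :
    rho (Fa a) p < p := by
  have hpp := Nat.prime_of_mem_primeFactors hp
  have hpq := Nat.dvd_of_mem_primeFactors hp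
  unfold rho
  have h1 : ¬ (p : ℤ) ∣ Fa a ((r % p : ℕ) : ℤ) := by
    rw [F_mod (Per_Fa a) p r]
    intro hd
    have h2 : (p : ℕ) ∣ Int.gcd (Fa a r) q := Int.dvd_gcd hd (by exact_mod_cast hpq)
    rw [hg] at h2
    exact hpp.one_lt.ne' (Nat.dvd_one.1 h2)
  have h2 : (range p).filter (fun x : ℕ => (p : ℤ) ∣ Fa a x) ⊆ (range p).erase (r % p) := by
    intro x hx
    rw [mem_filter] at hx
    rw [mem_erase]
    refine ⟨?_, hx.1⟩
    rintro rfl
    exact h1 hx.2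
  have h3 := card_le_card h2
  rw [card_erase_of_mem (mem_range.2 (Nat.mod_lt _ hpp.pos)), card_range] at h3
  have := hpp.pos
  omega

lemma two_mul_le_pow (k : ℕ) : 2 * (k + 1) ≤ 2 ^ (k + 1) := by
  induction k with
  | zero => norm_num
  | succ k ih => rw [pow_succ]; omega

lemma FqK_ge {k : ℕ} (a : Fin k → ℤ) (q : ℕ) (hq : 1 ≤ q) (hr : ∀ p ∈ q.primeFactors, rho (Fa a) p < p) :
    1 / (q.divisors.card : ℝ) ^ (k + 1) ≤ FqK a q := by
  have h1 : (1 / (2 * (k + 1 : ℝ))) ^ q.primeFactors.card ≤ FqK a q := by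
    unfold FqK
    rw [← prod_const]
    apply prod_le_prod (fun _ _ => by positivity)
    intro p hp
    have hpp := Nat.prime_of_mem_primeFactors hp
    refine fac_geK k p _ hpp.two_le ?_ (hr p hp)
    rw [rho_Fa a p hpp]
    exact nuP_le a p hpp
  refine le_trans ?_ h1
  have h2 := two_pow_omega_le q (by omega)
  have h3 : (2 : ℝ) ^ q.primeFactors.card ≤ (q.divisors.card : ℝ) := by exact_mod_cast h2
  rw [one_div_pow]
  apply one_div_le_one_div_of_le (by positivity)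
  have h4 : (2 * (k + 1 : ℝ)) ≤ 2 ^ (k + 1) := by exact_mod_cast two_mul_le_pow k
  calc (2 * (k + 1 : ℝ)) ^ q.primeFactors.card ≤ ((2 : ℝ) ^ (k + 1)) ^ q.primeFactors.card :=
        pow_le_pow_left₀ (by positivity) h4 _
    _ = ((2 : ℝ) ^ q.primeFactors.card) ^ (k + 1) := by rw [← pow_mul, ← pow_mul, mul_comm]
    _ ≤ _ := pow_le_pow_left₀ (by positivity) h3 _

lemma FqK_pos {k : ℕ} (a : Fin k → ℤ) (q : ℕ) (hr : ∀ p ∈ q.primeFactors, rho (Fa a) p < p) : 0 < FqK a q := by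
  unfold FqK
  apply prod_pos
  intro p hp
  have hpp := Nat.prime_of_mem_primeFactors hp
  have hp0 : (0 : ℝ) < p := by exact_mod_cast hpp.pos
  have : (rho (Fa a) p : ℝ) / p < 1 := by
    rw [div_lt_one hp0]
    exact_mod_cast hr p hp
  linarith

lemma singZ_F {k : ℕ} (a : Fin k → ℤ) (z : ℕ) : singZ a z = ((Vz z)⁻¹) ^ (k + 1) * ∏ p ∈ pz z, (1 - (rho (Fa a) p : ℝ) / p) := by
  have h1 : singZ a z = ∏ p ∈ pz z, (1 - (nuP a p : ℝ) / p) / (1 - 1 / (p : ℝ)) ^ (k + 1) := rfl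
  rw [h1, prod_div_distrib, prod_pow, div_eq_mul_inv, mul_comm]
  congr 1
  · rw [inv_pow]
    rfl
  · apply prod_congr rfl
    intro p hp
    rw [rho_Fa a p (mem_pz.1 hp).2]

/-- the constants in the classes -/
lemma locK {k : ℕ} (a : Fin k → ℤ) (z q : ℕ) (hz : 1 ≤ z) (hq : 1 ≤ q) (hr : ∀ p ∈ q.primeFactors, rho (Fa a) p < p) (S : ℝ) :
    |((Vz z)⁻¹) ^ (k + 1) * GF (Fa a) z q - S / FqK a q| ≤
      (q.divisors.card : ℝ) ^ (k + 1) * (|singZ a z - S| + singZ a z * ((k + 1) * q.primeFactors.card / z)) := by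
  set u := ∏ p ∈ (pz z).filter (fun p => p ∣ q), (1 - (rho (Fa a) p : ℝ) / p) with hu
  set F' := ∏ p ∈ q.primeFactors.filter (fun p => ¬ p ≤ z), (1 - (rho (Fa a) p : ℝ) / p) with hF'
  have hV := Vz_pos z
  have hF0 := FqK_pos a q hr
  have hs0 := singZ_nonneg a z
  have hsp : u * F' = FqK a q := by
    unfold FqK
    rw [← prod_filter_mul_prod_filter_not q.primeFactors (fun p => p ≤ z), hF', hu]
    congr 1
    apply prod_congr _ fun _ _ => rfl
    ext p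
    rw [mem_filter, mem_filter, mem_pz, Nat.mem_primeFactors]
    constructor
    · rintro ⟨⟨h1, h2⟩, h3⟩
      exact ⟨⟨h2, h3, by omega⟩, h1⟩
    · rintro ⟨⟨h1, h2, _⟩, h3⟩
      exact ⟨⟨h3, h1⟩, h2⟩
  have hFa : 0 ≤ 1 - F' := by
    have : F' ≤ 1 := prod_le_one (fun p _ => facF_nonneg _ p) (fun p _ => facF_le_one _ p)
    linarith
  have hF'0 : 0 ≤ F' := prod_nonneg (fun p _ => facF_nonneg _ p)
  have hFb : 1 - F' ≤ (k + 1) * q.primeFactors.card / z := by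
    have hz0 : (0 : ℝ) < z := by exact_mod_cast (by omega : 0 < z)
    have h1 := one_sub_sum_le (q.primeFactors.filter (fun p => ¬ p ≤ z)) (fun p => (rho (Fa a) p : ℝ) / p)
      (fun p _ => by positivity)
      (fun p _ => by
        have := facF_nonneg (Fa a) p
        linarith)
    have h2 : ∑ p ∈ q.primeFactors.filter (fun p => ¬ p ≤ z), (rho (Fa a) p : ℝ) / p ≤
        ∑ _p ∈ q.primeFactors.filter (fun p => ¬ p ≤ z), (k + 1) / (z : ℝ) := by
      refine sum_le_sum fun p hp => ?_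
      have h3 := (mem_filter.1 hp).2
      have hpp := Nat.prime_of_mem_primeFactors (mem_filter.1 hp).1
      have h4 : (z : ℝ) ≤ p := by exact_mod_cast (by omega : z ≤ p)
      have h5 : (rho (Fa a) p : ℝ) ≤ k + 1 := by
        rw [rho_Fa a p hpp]
        exact_mod_cast nuP_le a p hpp
      exact div_le_div₀ (by positivity) h5 hz0 h4
    rw [sum_const, nsmul_eq_mul] at h2
    have h3 : (((q.primeFactors.filter (fun p => ¬ p ≤ z)).card : ℕ) : ℝ) * ((k + 1) / z) ≤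
        q.primeFactors.card * ((k + 1) / z) := by
      apply mul_le_mul_of_nonneg_right _ (by positivity)
      exact_mod_cast card_filter_le _ _
    have h4 : (q.primeFactors.card : ℝ) * ((k + 1) / z) = (k + 1) * q.primeFactors.card / z := by ring
    linarith
  have hu0 : 0 < u := by
    rw [← hsp] at hF0
    by_contra hc
    have := mul_nonpos_of_nonpos_of_nonneg (not_lt.1 hc) hF'0
    linarith
  have hF'1 : 0 < F' := by
    rw [← hsp] at hF0
    by_contra hc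
    have h1 : F' = 0 := le_antisymm (not_lt.1 hc) hF'0
    rw [h1, mul_zero] at hF0
    exact lt_irrefl _ hF0
  have e0 : ((Vz z)⁻¹) ^ (k + 1) * GF (Fa a) z q * u = singZ a z := by
    rw [singZ_F, mul_assoc]
    congr 1
    rw [hu, mul_comm]
    unfold GF
    exact prod_filter_mul_prod_filter_not _ _ _
  have e1 : ((Vz z)⁻¹) ^ (k + 1) * GF (Fa a) z q = singZ a z / u := by
    rw [eq_div_iff hu0.ne', e0]
  have e2 : singZ a z / u - S / FqK a q = ((singZ a z - S) - singZ a z * (1 - F')) / FqK a q := by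
    rw [← hsp]
    field_simp
    ring
  rw [e1, e2, abs_div, abs_of_pos hF0, div_eq_mul_one_div, mul_comm]
  have h5 := FqK_ge a q hq hr
  have h6 : 1 / FqK a q ≤ (q.divisors.card : ℝ) ^ (k + 1) := by
    have hd : (0 : ℝ) < (q.divisors.card : ℝ) ^ (k + 1) := by
      have := dcard_pos q hq
      positivity
    rw [div_le_iff₀ hF0]
    rw [div_le_iff₀ hd] at h5
    linarith
  apply mul_le_mul h6 _ (abs_nonneg _) (by positivity)
  refine (abs_sub _ _).trans ?_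
  rw [abs_of_nonneg (mul_nonneg hs0 hFa)]
  have := mul_le_mul_of_nonneg_left hFb hs0
  linarith

end Pool.Agent.H735K
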