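import Pool.Agent.H735K.FinK

/-!
The number of the exceptional tuples.
-/

set_option autoImplicit false

namespace Pool.Agent.H735K

open Finset
open Pool.Agent.H373R2.T7 (pz Vz lamz mem_pz Vz_pos singZ degenerate)

/-- the conclusion for one tuple -/
def GoodT {k : ℕ} (A B N : ℕ) (ε : Fin k → ℤ) (h : Fin k → ℕ) : Prop :=
  ∃ S : ℝ, Filter.Tendsto (fun z => singZ (fun i => ε i * (h i : ℤ)) z) Filter.atTop (nhds S) ∧
    ∀ M : ℕ, M ≤ N → (∀ i, ∀ m ∈ Icc 1 M, 1 ≤ ε i * (m : ℤ) + h i) →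
      ∀ Q : ℕ, (Q : ℝ) ≤ N * Real.exp (-(B * Real.log (Real.log N) ^ 2)) →
      ∀ y : ℕ → ℕ → ℕ, (∀ q r, y q r ≤ M) →
      ∑ q ∈ Icc 1 Q, ∑ r ∈ redF (Fa (fun i => ε i * (h i : ℤ))) q,
        (thT ε (fun i => (h i : ℤ)) (y q r) q r - S / phF (Fa (fun i => ε i * (h i : ℤ))) q * y q r) ^ 2 ≤
        (N : ℝ) ^ 2 / Real.log N ^ A

lemma sum_box_le {k : ℕ} (N W : ℕ) (hW : N ≤ W) (F : (Fin k → ℤ) → ℝ) (hF : ∀ h, 0 ≤ F h) :
    ∑ h ∈ Fintype.piFinset (fun _ : Fin k => Icc 1 N), F (fun i => (h i : ℤ)) ≤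
      ∑ h ∈ Fintype.piFinset (fun _ : Fin k => Icc (-(W : ℤ)) W), F h := by
  have hinj : ∀ x ∈ Fintype.piFinset (fun _ : Fin k => Icc 1 N), ∀ y ∈ Fintype.piFinset (fun _ : Fin k => Icc 1 N),
      (fun i => (x i : ℤ)) = (fun i => (y i : ℤ)) → x = y := by
    intro x _ y _ h
    ext i
    have := congrFun h i
    exact_mod_cast this
  rw [← sum_image (g := fun h : Fin k → ℕ => (fun i => (h i : ℤ))) (f := F) hinj]
  apply sum_le_sum_of_subset_of_nonneg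
  · intro x hx
    rw [mem_image] at hx
    obtain ⟨h, hh, rfl⟩ := hx
    rw [Fintype.mem_piFinset] at hh ⊢
    intro i
    have h1 := mem_Icc.1 (hh i)
    rw [mem_Icc]
    constructor <;> omega
  · intro _ _ _
    exact hF _

open Classical in
theorem thmK (k A : ℕ) : ∃ B N0 : ℕ, ∀ N : ℕ, N0 ≤ N → ∀ ε : Fin k → ℤ, (∀ i, ε i = 1 ∨ ε i = -1) →
    (((Fintype.piFinset (fun _ : Fin k => Icc 1 N)).filter (fun h => ¬ GoodT A B N ε h)).card : ℝ) ≤
      (N : ℝ) ^ k / Real.log N ^ A := by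
  obtain ⟨g, hg⟩ : ∃ g : ℕ, g = A + k + 6 := ⟨_, rfl⟩
  obtain ⟨B0, Bm, hmom⟩ := momK k (2 * A + 4) g
  obtain ⟨E0, hdet⟩ := detT k A
  obtain ⟨E, hE⟩ : ∃ E : ℕ, E = E0 + B0 + 1 := ⟨_, rfl⟩
  obtain ⟨Bd, N1, hN1⟩ := hdet E (by omega)
  obtain ⟨N2, hN2⟩ := hmom E
  obtain ⟨N3, hN3⟩ := ev_log ((2 : ℝ) ^ (B0 + 1) + (k + k * k) + 1000)
  obtain ⟨N4, hN4⟩ := ev_pow (A + 3)
  refine ⟨Bd + Bm, N1 + N2 + N3 + N4 + 16, fun N hN ε hε => ?_⟩
  set L := Real.log (N : ℝ) with hL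
  have hLb := hN3 N (by omega)
  rw [← hL] at hLb
  have hpw : (0 : ℝ) < 2 ^ (B0 + 1) := by positivity
  have hkk : (0 : ℝ) ≤ k + k * k := by positivity
  have hL8 : 1000 ≤ L := by linarith
  have hL1 : 1 ≤ L := by linarith
  have hL0 : 0 < L := by linarith
  have hN0 : (0 : ℝ) < N := by exact_mod_cast (by omega : 0 < N)
  have hNn : 1 ≤ N := by omega
  have hℓ1 : 1 ≤ Real.log L := by
    rw [Real.le_log_iff_exp_le hL0]
    have := Real.exp_one_lt_d9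
    linarith
  have hℓ2 : Real.log L ≤ Real.log L ^ 2 := by nlinarith
  have hLe2 : ∀ n : ℕ, L ^ n ≤ Real.exp (n * Real.log L ^ 2) := by
    intro n
    have e1 : L ^ n = Real.exp (n * Real.log L) := by
      rw [mul_comm, ← Real.rpow_def_of_pos hL0, Real.rpow_natCast]
    rw [e1]
    apply Real.exp_le_exp.2
    exact mul_le_mul_of_nonneg_left hℓ2 (Nat.cast_nonneg _)
  -- the parameters
  obtain ⟨z, hz⟩ : ∃ z : ℕ, z = ⌊L ^ E⌋₊ := ⟨_, rfl⟩
  obtain ⟨G, hG⟩ : ∃ G : ℕ, G = ⌊L ^ g⌋₊ + 1 := ⟨_, rfl⟩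
  obtain ⟨Q0, hQ0⟩ : ∃ Q0 : ℕ, Q0 = ⌊(N : ℝ) / L ^ Bm⌋₊ := ⟨_, rfl⟩
  have hLE2 : L ≤ L ^ E := by
    calc L = L ^ 1 := (pow_one _).symm
      _ ≤ L ^ E := pow_le_pow_right₀ hL1 (by omega)
  have hz1 : (z : ℝ) ≤ L ^ E := by rw [hz]; exact Nat.floor_le (by positivity)
  have hz2 : L ^ E / 2 ≤ z := by
    rw [hz]
    have := Nat.lt_floor_add_one (L ^ E)
    linarith
  have hz3 : 1 ≤ z := by
    have h1 : (1 : ℝ) ≤ z := by linarith
    exact_mod_cast h1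
  have hG1 : L ^ g ≤ G := by rw [hG]; push_cast; exact (Nat.lt_floor_add_one _).le
  have hLg1 : 1 ≤ L ^ g := one_le_pow₀ hL1
  have hG2 : (G : ℝ) + 1 ≤ 3 * L ^ g := by
    have h1 : ((⌊L ^ g⌋₊ : ℕ) : ℝ) ≤ L ^ g := Nat.floor_le (by positivity)
    rw [hG]
    push_cast
    linarith
  have hG3 : 1 ≤ G := by omega
  have hQ01 : (Q0 : ℝ) ≤ N / L ^ Bm := by rw [hQ0]; exact Nat.floor_le (by positivity)
  have hzL : (2 * L) ^ B0 ≤ z := by
    calc (2 * L) ^ B0 = 2 ^ (B0 + 1) * L ^ B0 / 2 := by rw [mul_pow, pow_succ]; ring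
      _ ≤ L * L ^ B0 / 2 := by
          apply div_le_div_of_nonneg_right _ (by norm_num)
          exact mul_le_mul_of_nonneg_right (by linarith) (by positivity)
      _ = L ^ (B0 + 1) / 2 := by rw [pow_succ]; ring
      _ ≤ L ^ E / 2 := by
          apply div_le_div_of_nonneg_right _ (by norm_num)
          exact pow_le_pow_right₀ hL1 (by omega)
      _ ≤ z := hz2
  have hmm := hN2 N (by omega) z hz3 hzL hz1 ε hε G Q0 hG2 hG3 hQ01
  set Box := Fintype.piFinset (fun _ : Fin k => Icc 1 N) with hBox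
  obtain ⟨T, hT⟩ : ∃ T : ℝ, T = (N : ℝ) ^ 2 / L ^ (A + 3) := ⟨_, rfl⟩
  have hT0 : 0 < T := by rw [hT]; positivity
  have hmm2 : ∑ h ∈ Box, S2K z N Q0 G ε (fun i => (h i : ℤ)) ≤ (N : ℝ) ^ (k + 2) / L ^ (2 * A + 4) :=
    (sum_box_le N (3 * N) (by omega) (fun h => S2K z N Q0 G ε h) (fun h => S2K_nn _ _ _ _ _ _)).trans hmm
  have c1 := markov Box (fun h => S2K z N Q0 G ε (fun i => (h i : ℤ))) (fun h => T < S2K z N Q0 G ε (fun i => (h i : ℤ)))
    (fun h _ => S2K_nn _ _ _ _ _ _) _ T hT0 hmm2 (fun _ _ h => h)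
  have d1 : (N : ℝ) ^ (k + 2) / L ^ (2 * A + 4) / T = (N : ℝ) ^ k / L ^ (A + 1) := by
    rw [hT, show 2 * A + 4 = (A + 1) + (A + 3) by ring, pow_add L (A + 1) (A + 3), pow_add (N : ℝ) k 2]
    field_simp
  rw [d1] at c1
  -- degenerate tuples
  have hε0 : ∀ i, ε i ≠ 0 := by
    intro i
    rcases hε i with h | h <;> rw [h] <;> norm_num
  have c2 := degenerate (fun i => Polynomial.C (ε i) * Polynomial.X) (fun i => by
      rw [Polynomial.natDegree_C_mul_X _ (hε0 i)]) (fun _ => N) (fun _ => hNn) 1 (fun i => by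
      rw [Polynomial.natDegree_C_mul_X _ (hε0 i)]) N hN0 (fun _ => le_rfl)
  rw [prod_const, card_univ, Fintype.card_fin] at c2
  have d2 : ((k : ℝ) + k * k) * ((1 : ℕ) : ℝ) * (N : ℝ) ^ k / N ≤ (N : ℝ) ^ k / L ^ (A + 1) := by
    have h1 := hN4 N (by omega)
    rw [← hL] at h1
    rw [Nat.cast_one, mul_one, div_le_div_iff₀ hN0 (by positivity)]
    calc ((k : ℝ) + k * k) * (N : ℝ) ^ k * L ^ (A + 1) ≤ L * (N : ℝ) ^ k * L ^ (A + 1) := by
          gcongr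
          linarith
      _ = (N : ℝ) ^ k * L ^ (A + 2) := by ring
      _ ≤ (N : ℝ) ^ k * L ^ (A + 3) := by
          apply mul_le_mul_of_nonneg_left _ (by positivity)
          exact pow_le_pow_right₀ hL1 (by omega)
      _ ≤ (N : ℝ) ^ k * N := mul_le_mul_of_nonneg_left h1 (by positivity)
  have c2' := c2.trans d2
  -- covering
  have hcov : Box.filter (fun h => ¬ GoodT A (Bd + Bm) N ε h) ⊆
      Box.filter (fun h => T < S2K z N Q0 G ε (fun i => (h i : ℤ))) ∪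
      Box.filter (fun m : Fin k → ℕ => (∃ i, (Polynomial.C (ε i) * Polynomial.X : Polynomial ℤ).eval (m i : ℤ) = 0) ∨
      ∃ i j, i ≠ j ∧ (Polynomial.C (ε i) * Polynomial.X : Polynomial ℤ).eval (m i : ℤ) =
        (Polynomial.C (ε j) * Polynomial.X : Polynomial ℤ).eval (m j : ℤ)) := by
    intro h hh
    rw [mem_filter] at hh
    rw [mem_union, mem_filter, mem_filter]
    by_contra hno
    push Not at hno
    obtain ⟨h1, h2⟩ := hno
    have h1' := h1 hh.1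
    have h2' := (h2 hh.1).2
    simp only [Polynomial.eval_mul, Polynomial.eval_C, Polynomial.eval_X] at h2'
    apply hh.2
    have hb := Fintype.mem_piFinset.1 hh.1
    obtain ⟨S, hS, hSup, hall⟩ := hN1 N (by omega) z hz1 hz2 G (by rw [← hg]; exact hG1) ε (fun i => (h i : ℤ)) hε
      (fun i => by
        have := mem_Icc.1 (hb i)
        constructor <;> omega) h2'
    refine ⟨S, hS, fun M hM hr Q hQ y hy => ?_⟩
    have hBB : ∀ B' : ℕ, B' ≤ Bd + Bm → (Q : ℝ) ≤ N * Real.exp (-(B' * Real.log L ^ 2)) := by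
      intro B' hB'
      refine hQ.trans ?_
      apply mul_le_mul_of_nonneg_left _ hN0.le
      apply Real.exp_le_exp.2
      have : (B' : ℝ) ≤ ((Bd + Bm : ℕ) : ℝ) := by exact_mod_cast hB'
      have h5 := mul_le_mul_of_nonneg_right this (sq_nonneg (Real.log L))
      linarith
    have hQ1 : Q ≤ Q0 := by
      rw [hQ0]
      apply Nat.le_floor
      refine (hBB Bm (by omega)).trans ?_
      rw [div_eq_mul_inv]
      apply mul_le_mul_of_nonneg_left _ hN0.le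
      rw [Real.exp_neg]
      exact inv_anti₀ (by positivity) (hLe2 Bm)
    have hfin := hall M hM (fun i m hm => ⟨hr i m hm, by
      have h3 := mem_Icc.1 (hb i)
      have h4 := mem_Icc.1 hm
      push_cast
      rcases hε i with h5 | h5 <;> rw [h5] <;> omega⟩) Q (hBB Bd (by omega)) y hy
    refine hfin.trans ?_
    have h3 := (S2K_mono z N Q Q0 G hQ1 ε (fun i => (h i : ℤ))).trans h1'
    have h4 : 4 * T + (N : ℝ) ^ 2 / L ^ (A + 2) ≤ (N : ℝ) ^ 2 / L ^ A := by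
      have e1 : 4 * T = 4 / L ^ 3 * ((N : ℝ) ^ 2 / L ^ A) := by
        rw [hT, pow_add]
        field_simp
      have e2 : (N : ℝ) ^ 2 / L ^ (A + 2) = 1 / L ^ 2 * ((N : ℝ) ^ 2 / L ^ A) := by
        rw [pow_add]
        field_simp
      rw [e1, e2, ← add_mul]
      have e3 : 4 / L ^ 3 ≤ 1 / 2 := by
        rw [div_le_div_iff₀ (by positivity) (by norm_num)]
        have : L ≤ L ^ 3 := le_self_pow₀ hL1 (by norm_num)
        linarith
      have e4 : 1 / L ^ 2 ≤ 1 / 2 := by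
        apply one_div_le_one_div_of_le (by norm_num)
        have : L ≤ L ^ 2 := le_self_pow₀ hL1 (by norm_num)
        linarith
      calc (4 / L ^ 3 + 1 / L ^ 2) * ((N : ℝ) ^ 2 / L ^ A) ≤ 1 * ((N : ℝ) ^ 2 / L ^ A) := by
            apply mul_le_mul_of_nonneg_right _ (by positivity)
            linarith
        _ = _ := one_mul _
    linarith
  have k1 := card_le_card hcov
  have k2 := card_union_le (Box.filter (fun h => T < S2K z N Q0 G ε (fun i => (h i : ℤ))))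
    (Box.filter (fun m : Fin k → ℕ => (∃ i, (Polynomial.C (ε i) * Polynomial.X : Polynomial ℤ).eval (m i : ℤ) = 0) ∨
      ∃ i j, i ≠ j ∧ (Polynomial.C (ε i) * Polynomial.X : Polynomial ℤ).eval (m i : ℤ) =
        (Polynomial.C (ε j) * Polynomial.X : Polynomial ℤ).eval (m j : ℤ)))
  have k3 : (((Box.filter (fun h => ¬ GoodT A (Bd + Bm) N ε h)).card : ℕ) : ℝ) ≤
      ((Box.filter (fun h => T < S2K z N Q0 G ε (fun i => (h i : ℤ)))).card : ℝ) +
      ((Box.filter (fun m : Fin k → ℕ => (∃ i, (Polynomial.C (ε i) * Polynomial.X : Polynomial ℤ).eval (m i : ℤ) = 0) ∨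
      ∃ i j, i ≠ j ∧ (Polynomial.C (ε i) * Polynomial.X : Polynomial ℤ).eval (m i : ℤ) =
        (Polynomial.C (ε j) * Polynomial.X : Polynomial ℤ).eval (m j : ℤ))).card : ℝ) := by
    exact_mod_cast k1.trans k2
  have k5 : (N : ℝ) ^ k / L ^ (A + 1) + (N : ℝ) ^ k / L ^ (A + 1) ≤ (N : ℝ) ^ k / L ^ A := by
    have e1 : (N : ℝ) ^ k / L ^ (A + 1) + (N : ℝ) ^ k / L ^ (A + 1) = 2 * (N : ℝ) ^ k / L ^ (A + 1) := by ring
    rw [e1, div_le_div_iff₀ (by positivity) (by positivity), pow_succ L A]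
    have h5 : 2 * ((N : ℝ) ^ k * L ^ A) ≤ L * ((N : ℝ) ^ k * L ^ A) :=
      mul_le_mul_of_nonneg_right (by linarith) (by positivity)
    linarith
  linarith

end Pool.Agent.H735K
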